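import Pool.Agent.Work.MP_32aa60_lc.GP.A

/-!
The gap construction with perturbed points: no three points of the configuration are collinear.
The parts that do not mention the points are taken from `H39Top`.
-/

namespace Pool.Agent.Work.MP_32aa60_lc.GP

open Finset Pool.Agent.Lib.Poly

/-- The input of the construction, as before. -/
abbrev Par := Pool.Agent.Work.MP_32aa60_lc.Par

namespace Par

open Pool.Agent.Work.MP_32aa60_lc.Par

/-- A bound for all old coordinates. -/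
def Bd (P : Par) : ℕ := 3 * P.E ^ 3
def xP (P : Par) (d : Desc) : ℕ := px P.Bd (P.xN d) (P.yN d)
def yP (P : Par) (d : Desc) : ℕ := py P.Bd (P.xN d) (P.yN d)
/-- The perturbed point. -/
def pt (P : Par) (d : Desc) : ℚ × ℚ := ((P.xP d : ℚ), (P.yP d : ℚ))

section
variable {P : Par} {T : List (ℚ × ℚ)}

theorem E_facts (P : Par) : 1 ≤ P.E ∧ 2 * P.Z + 1 ≤ P.E ∧ 4 * P.Z ^ 2 ≤ P.E ∧ P.E ≤ P.E ^ 2 ∧
    P.E ^ 2 ≤ P.E ^ 3 := by
  have h2 : P.Z ≤ P.Z ^ 2 := Nat.le_self_pow (by norm_num) _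
  have h3 : P.E = 10 * P.Z ^ 2 + 1 := rfl
  have h1 : 1 ≤ P.E := by omega
  exact ⟨h1, by omega, by omega, Nat.le_self_pow (by norm_num) _,
    Nat.pow_le_pow_right h1 (by norm_num)⟩

theorem xN_le {d : Desc} (h : P.Valid d) : P.xN d ≤ P.Bd := by
  obtain ⟨h1, h2, h3, -, -⟩ := h.nat_bd
  obtain ⟨e1, e2, -, e4, e5⟩ := E_facts P
  have a1 : P.E ^ 2 * P.X d ≤ P.E ^ 2 * P.E := Nat.mul_le_mul_left _ (by omega)
  have a2 : P.E * (P.c d.a ^ 2 + 2 * P.c d.a * d.i) ≤ P.E * P.E :=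
    Nat.mul_le_mul_left _ (by omega)
  rw [show P.E ^ 2 * P.E = P.E ^ 3 from (pow_succ _ 2).symm] at a1
  rw [← sq] at a2
  unfold xN Bd
  omega

theorem yN_le {d : Desc} (h : P.Valid d) : P.yN d ≤ P.Bd := by
  obtain ⟨-, -, -, h4, h5⟩ := h.nat_bd
  obtain ⟨e1, e2, -, e4, e5⟩ := E_facts P
  have a2 : P.E * P.Y d ≤ P.E * P.E := Nat.mul_le_mul_left _ (by omega)
  rw [← sq] at a2
  unfold yN Bd
  omega

/-- The descriptor is valid and its point lies in the part. -/
def Cov (P : Par) (T : List (ℚ × ℚ)) (d : Desc) : Prop := P.Valid d ∧ P.pt d ∈ T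

def oriP (P : Par) (d e f : Desc) : ℤ :=
  ori (P.xP d) (P.yP d) (P.xP e) (P.yP e) (P.xP f) (P.yP f)

theorem Cov.mem {d : Desc} (h : P.Cov T d) : In T (P.xP d) (P.yP d) := by
  simpa [In, pt] using h.2

theorem tri (hT : ConvexPos T) {a b c p : Desc} (ha : P.Cov T a) (hb : P.Cov T b)
    (hc : P.Cov T c) (hp : P.Cov T p) (h1 : 0 < P.oriP a b p) (h2 : 0 < P.oriP b c p)
    (h3 : 0 ≤ P.oriP c a p) : False :=
  tri_false hT ha.mem hb.mem hc.mem hp.mem h1 h2 h3

theorem lift {d e f : Desc} (hd : P.Valid d) (he : P.Valid e) (hf : P.Valid f)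
    (h : 0 < ori (P.xN d) (P.yN d) (P.xN e) (P.yN e) (P.xN f) (P.yN f)) : 0 < P.oriP d e f :=
  ori_pert (xN_le hd) (yN_le hd) (xN_le he) (yN_le he) (xN_le hf) (yN_le hf) (Or.inl h)

theorem pos3 {d e f : Desc} (hd : P.Valid d) (he : P.Valid e) (hf : P.Valid f)
    (h : 0 < ori (P.X d) (P.Y d) (P.X e) (P.Y e) (P.X f) (P.Y f)) : 0 < P.oriP d e f :=
  lift hd he hf (Pool.Agent.Work.MP_32aa60_lc.Par.pos3 hd he hf h)

theorem posRow {d e f : Desc} (hd : P.Valid d) (he : P.Valid e) (hf : P.Valid f)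
    (h1 : e.a = d.a) (h2 : e.i = d.i) (h3 : f.a = d.a) (h4 : f.i = d.i)
    (h : 0 < ori (P.X d) (P.C d) (P.X e) (P.C e) (P.X f) (P.C f)) : 0 < P.oriP d e f :=
  lift hd he hf (Pool.Agent.Work.MP_32aa60_lc.Par.posRow hd he hf h1 h2 h3 h4 h)

theorem posCol {d e f : Desc} (hd : P.Valid d) (he : P.Valid e) (hf : P.Valid f)
    (h1 : P.X e = P.X d) (h2 : P.X f = P.X d)
    (h : 0 < ori ((P.Y d : ℤ) ^ 2 - (d.i : ℤ) ^ 2) (P.Y d) ((P.Y e : ℤ) ^ 2 - (e.i : ℤ) ^ 2) (P.Y e)
      ((P.Y f : ℤ) ^ 2 - (f.i : ℤ) ^ 2) (P.Y f)) : 0 < P.oriP d e f :=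
  lift hd he hf (Pool.Agent.Work.MP_32aa60_lc.Par.posCol hd he hf h1 h2 h)

/-- Three points of a row on one track exclude all points below the row. -/
theorem row_below (hT : ConvexPos T) {d1 d2 d3 z : Desc} (c1 : P.Cov T d1) (c2 : P.Cov T d2)
    (c3 : P.Cov T d3) (cz : P.Cov T z) (a2 : d2.a = d1.a) (i2 : d2.i = d1.i) (a3 : d3.a = d1.a)
    (i3 : d3.i = d1.i) (l2 : P.Low d2 ↔ P.Low d1) (l3 : P.Low d2 ↔ P.Low d3)
    (x1 : P.X d1 < P.X d2) (x2 : P.X d2 < P.X d3) (hz : P.Y z < P.Y d1) : False := by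
  have y2 : P.Y d2 = P.Y d1 := by unfold Y; rw [a2, i2]
  have y3 : P.Y d3 = P.Y d1 := by unfold Y; rw [a3, i3]
  have z1 : (0 : ℤ) < (P.Y d1 : ℤ) - P.Y z := by omega
  refine tri hT c1 cz c3 c2 (pos3 c1.1 cz.1 c2.1 ?_) (pos3 cz.1 c3.1 c2.1 ?_)
    (posRow c3.1 c1.1 c2.1 (by omega) (by omega) (by omega) (by omega) ?_).le
  · have : (0 : ℤ) < (P.X d2 : ℤ) - P.X d1 := by omega
    have := mul_pos this z1
    unfold ori; rw [y2]; linarith only [this]
  · have : (0 : ℤ) < (P.X d3 : ℤ) - P.X d2 := by omega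
    have := mul_pos this z1
    unfold ori; rw [y2, y3]; linarith only [this]
  · have e1 := X_even (P := P) d1
    have e2 := X_even (P := P) d2
    have e3 := X_even (P := P) d3
    have f1 := h_close c2.1 l2
    have f3 := h_close c2.1 l3
    simp only [C]
    push_cast
    exact cup_core (by omega) (by omega) (by omega) (by omega)

/-- Three points of a column in distinct block rows exclude all points left of the column. -/
theorem col_left (hT : ConvexPos T) {d1 d2 d3 z : Desc} (c1 : P.Cov T d1) (c2 : P.Cov T d2)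
    (c3 : P.Cov T d3) (cz : P.Cov T z) (x2 : P.X d2 = P.X d1) (x3 : P.X d3 = P.X d1)
    (a1 : d1.a < d2.a) (a2 : d2.a < d3.a) (hz : P.X z < P.X d1) : False := by
  have y1 := Y_lt c1.1 a1
  have y2 := Y_lt c2.1 a2
  have z1 : (0 : ℤ) < (P.X d1 : ℤ) - P.X z := by omega
  refine tri hT c3 cz c1 c2 (pos3 c3.1 cz.1 c2.1 ?_) (pos3 cz.1 c1.1 c2.1 ?_)
    (posCol c1.1 c3.1 c2.1 x3 x2 ?_).le
  · have : (0 : ℤ) < (P.Y d3 : ℤ) - P.Y d2 := by omega
    have := mul_pos this z1
    unfold ori; rw [x2, x3]; linarith only [this]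
  · have : (0 : ℤ) < (P.Y d2 : ℤ) - P.Y d1 := by omega
    have := mul_pos this z1
    unfold ori; rw [x2]; linarith only [this]
  · have b1 := c1.1.bounds
    have b3 := c3.1.bounds
    exact col_core (I := P.I) (by omega) (by omega) (by omega) (by omega)

/-- A part with points at both ends of a row uses only one track in each block of the row. -/
theorem one_track (hT : ConvexPos T) {l r p q : Desc} (cl : P.Cov T l) (cr : P.Cov T r)
    (cp : P.Cov T p) (cq : P.Cov T q) (ar : r.a = l.a) (ir : r.i = l.i) (ap : p.a = l.a)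
    (ip : p.i = l.i) (aq : q.a = l.a) (iq : q.i = l.i) (bl : l.b = 0) (kl : l.k = 0)
    (br : r.b = P.S' + 1) (kr : r.k = 0) (op : P.Opt p) (oq : P.Opt q) (bpq : p.b = q.b)
    (lp : P.Low p) (lq : ¬ P.Low q) : False := by
  have hl : P.h l = P.d0 := by
    unfold h; rw [if_neg (by unfold Low; omega)]; omega
  have hr : P.h r = P.d0 := by
    unfold h; rw [if_neg (by unfold Low; omega)]; omega
  have hp : P.h p = p.k := by unfold h; rw [if_pos lp]
  have hq : P.h q = P.d0 + q.k := by unfold h; rw [if_neg lq]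
  have g1 := P.G1_ge
  obtain ⟨-, -, p1, p2, p3, p4, -⟩ := op
  obtain ⟨-, -, q1, q2, q3, q4, -⟩ := oq
  have x1 := X_lt (e := p) cl.1 (by omega)
  have x2 := X_lt (e := q) cl.1 (by omega)
  have x3 := X_lt (e := r) cp.1 (by omega)
  have x4 := X_lt (e := r) cq.1 (by omega)
  have x5 := cr.1.X_le
  have x6 : P.X p ≤ P.X q + 2 * P.J ∧ P.X q ≤ P.X p + 2 * P.J := by
    unfold X; rw [bpq]; omega
  have hd : (2 * (P.J : ℤ)) * P.Xm + 3 ≤ P.d0 := by unfold d0; push_cast; omega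
  obtain ⟨t1, t2, t3⟩ := track_core (xl := P.X l) (xr := P.X r) (xp := P.X p) (xq := P.X q)
    (d := P.d0) (kp := p.k) (kq := q.k) (W := 2 * P.J) (M := P.Xm) (by omega) (by omega)
    (by omega) (by omega) (by omega) (by omega) (by omega) hd (by omega) (by omega) (by omega)
  refine tri hT cl cp cr cq (posRow cl.1 cp.1 cq.1 ap ip aq iq ?_)
    (posRow cp.1 cr.1 cq.1 (by omega) (by omega) (by omega) (by omega) ?_)
    (posRow cr.1 cl.1 cq.1 (by omega) (by omega) (by omega) (by omega) ?_).le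
  · simp only [C, hl, hp, hq]; push_cast; exact t1
  · simp only [C, hr, hp, hq]; push_cast; exact t2
  · simp only [C, hl, hr, hq]; push_cast; exact t3

theorem col_side {d z : Desc} (hd : P.Valid d) (hz : P.Valid z) (ha : z.a ≠ d.a)
    (hx : P.X z = P.X d) :
    (P.xN d : ℤ) - 2 * P.c d.a * P.yN d < P.xN z - 2 * P.c d.a * P.yN z := by
  have k1 := Pool.Agent.Work.MP_32aa60_lc.Par.col_diff hd hz ha hx 1 (Or.inl rfl)
  have k2 := Pool.Agent.Work.MP_32aa60_lc.Par.col_diff hd hz ha hx (-1) (Or.inr rfl)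
  simp only [Pool.Agent.Work.MP_32aa60_lc.Par.pt] at k1 k2
  push_cast at k1 k2
  have : (P.xN d : ℚ) - 2 * P.c d.a * P.yN d < P.xN z - 2 * P.c d.a * P.yN z := by
    linarith only [k1, k2]
  exact_mod_cast this

theorem mid_false (hT : ConvexPos T) {d1 d2 d3 z : Desc} (c1 : P.Cov T d1) (c2 : P.Cov T d2)
    (c3 : P.Cov T d3) (cz : P.Cov T z) (a2 : d2.a = d1.a) (a3 : d3.a = d1.a)
    (x2 : P.X d2 = P.X d1) (x3 : P.X d3 = P.X d1) (az : z.a ≠ d1.a) (xz : P.X z = P.X d1)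
    (u1 : P.u d1 < P.u d2) (u2 : P.u d2 < P.u d3) : False := by
  have s1 := col_side c1.1 cz.1 az xz
  have v1 : (0 : ℤ) < (P.u d2 : ℤ) - P.u d1 := by omega
  have v2 : (0 : ℤ) < (P.u d3 : ℤ) - P.u d2 := by omega
  have w1 := mul_pos v1 (sub_pos.2 s1)
  have w2 := mul_pos v2 (sub_pos.2 s1)
  refine tri hT c1 cz c3 c2 (lift c1.1 cz.1 c2.1 ?_) (lift cz.1 c3.1 c2.1 ?_)
    (ori_pert (xN_le c3.1) (yN_le c3.1) (xN_le c1.1) (yN_le c1.1) (xN_le c2.1) (yN_le c2.1)
      (Or.inr ⟨?_, lev_pos (xN_le c3.1) (xN_le c1.1) (xN_le c2.1) ?_⟩)).le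
  · generalize P.xN z = zx at *
    generalize P.yN z = zy at *
    simp only [xN_eq, yN_eq, a2, x2, ori] at w1 ⊢
    push_cast at w1 ⊢
    linarith only [w1]
  · generalize P.xN z = zx at *
    generalize P.yN z = zy at *
    simp only [xN_eq, yN_eq, a2, x2, a3, x3, ori] at w2 ⊢
    push_cast at w2 ⊢
    linarith only [w2]
  · simp only [xN_eq, yN_eq, a2, x2, a3, x3, ori]
    push_cast
    ring
  · have := mul_pos (mul_pos (add_pos v1 v2) v2) v1
    simp only [yN_eq, a2, a3, vdm]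
    push_cast
    linarith only [this]

/-- The three literal points of a column in a block and a point of the column in another block
row are not in convex position. -/
theorem three_lits (hT : ConvexPos T) {d0 d1 d2 z : Desc} (c0 : P.Cov T d0) (c1 : P.Cov T d1)
    (c2 : P.Cov T d2) (a1 : d1.a = d0.a) (a2 : d2.a = d0.a) (x1 : P.X d1 = P.X d0)
    (x2 : P.X d2 = P.X d0) (k01 : d0.k ≠ d1.k) (k02 : d0.k ≠ d2.k) (k12 : d1.k ≠ d2.k)
    (cz : P.Cov T z) (az : z.a ≠ d0.a) (xz : P.X z = P.X d0) : False := by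
  have n01 := u_ne c0.1 c1.1 x1.symm k01
  have n02 := u_ne c0.1 c2.1 x2.symm k02
  have n12 := u_ne c1.1 c2.1 (x1.trans x2.symm) k12
  rcases lt_or_gt_of_ne n01 with e1 | e1 <;> rcases lt_or_gt_of_ne n02 with e2 | e2 <;>
    rcases lt_or_gt_of_ne n12 with e3 | e3
  all_goals first
    | omega
    | exact mid_false hT c0 c1 c2 cz (by omega) (by omega) (by omega) (by omega) (by omega)
        (by omega) (by omega) (by omega)
    | exact mid_false hT c0 c2 c1 cz (by omega) (by omega) (by omega) (by omega) (by omega)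
        (by omega) (by omega) (by omega)
    | exact mid_false hT c1 c0 c2 cz (by omega) (by omega) (by omega) (by omega) (by omega)
        (by omega) (by omega) (by omega)
    | exact mid_false hT c1 c2 c0 cz (by omega) (by omega) (by omega) (by omega) (by omega)
        (by omega) (by omega) (by omega)
    | exact mid_false hT c2 c0 c1 cz (by omega) (by omega) (by omega) (by omega) (by omega)
        (by omega) (by omega) (by omega)
    | exact mid_false hT c2 c1 c0 cz (by omega) (by omega) (by omega) (by omega) (by omega)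
        (by omega) (by omega) (by omega)

/-- A group of rows strictly between two points of the part meets at most two columns. -/
theorem thin_group (hT : ConvexPos T) {d1 d2 d3 zl zu : Desc} (c1 : P.Cov T d1) (c2 : P.Cov T d2)
    (c3 : P.Cov T d3) (cl : P.Cov T zl) (cu : P.Cov T zu) (q1 : P.Q ≤ d1.a) (q2 : P.Q ≤ d2.a)
    (q3 : P.Q ≤ d3.a) (g1 : P.grp d1.a = P.grp d2.a) (g3 : P.grp d3.a = P.grp d2.a)
    (x1 : P.X d1 < P.X d2) (x2 : P.X d2 < P.X d3) (gl : P.grp zl.a < P.grp d2.a)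
    (gu : P.grp d2.a < P.grp zu.a) : False := by
  have hH : (P.Xm : ℤ) * (P.Δ * P.R0 : ℕ) < P.H := by unfold H; push_cast; omega
  have hΔ : P.Δ = 2 * P.I + 2 := rfl
  have close : ∀ d e : Desc, P.Valid e → P.Q ≤ d.a → P.grp d.a = P.grp e.a →
      P.Y e ≤ P.Y d + P.Δ * P.R0 := by
    intro d e he hq hg
    have := c_grp_eq hq hg
    have := he.bounds
    unfold Y
    omega
  have far : ∀ d e : Desc, P.Valid d → P.grp d.a < P.grp e.a → P.Y d + P.H ≤ P.Y e := by
    intro d e hd hg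
    have := c_grp_lt hg
    have := hd.bounds
    unfold Y
    omega
  have w12 := close d1 d2 c2.1 q1 g1
  have w21 := close d2 d1 c1.1 q2 g1.symm
  have w32 := close d3 d2 c2.1 q3 g3
  have w23 := close d2 d3 c3.1 q2 g3.symm
  have f1 := far zl d2 cl.1 gl
  have f2 := far d2 zu c2.1 gu
  have m1 := c1.1.X_le
  have m2 := c2.1.X_le
  have m3 := c3.1.X_le
  have ml := cl.1.X_le
  have mu := cu.1.X_le
  rcases le_total 0 (P.oriP d3 d1 d2) with h | h
  · refine tri hT c1 cl c3 c2 (pos3 c1.1 cl.1 c2.1 ?_) (pos3 cl.1 c3.1 c2.1 ?_) h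
    · rw [ori_cyc, ori_cyc]
      exact far_core' (M := P.Xm) (W := (P.Δ * P.R0 : ℕ)) (by omega) (by omega) (by omega)
        (by omega) (by omega) (by omega)
    · rw [ori_cyc, ori_cyc, ori_swap, neg_pos, ← neg_pos, ← ori_swap, ori_swap, neg_pos]
      have := far_core (x := P.X d2) (y := -P.Y d2) (x' := P.X d3) (y' := -P.Y d3) (xz := P.X zl)
        (yz := -P.Y zl) (M := P.Xm) (W := (P.Δ * P.R0 : ℕ)) (by omega) (by omega) (by omega)
        (by omega) (by omega) (by omega)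
      unfold ori at this ⊢
      linarith only [this]
  · refine tri hT c3 cu c1 c2 (pos3 c3.1 cu.1 c2.1 ?_) (pos3 cu.1 c1.1 c2.1 ?_) ?_
    · rw [ori_cyc, ori_cyc]
      exact far_core (M := P.Xm) (W := (P.Δ * P.R0 : ℕ)) (by omega) (by omega) (by omega)
        (by omega) (by omega) (by omega)
    · have := far_core' (x := P.X d2) (y := -P.Y d2) (x' := P.X d1) (y' := -P.Y d1) (xz := P.X zu)
        (yz := -P.Y zu) (M := P.Xm) (W := (P.Δ * P.R0 : ℕ)) (by omega) (by omega) (by omega)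
        (by omega) (by omega) (by omega)
      unfold ori at this ⊢
      linarith only [this]
    · unfold oriP ori at h ⊢
      linarith only [h]

/-- The part has three points on one track of the row. -/
def MainR (P : Par) (T : List (ℚ × ℚ)) (a i : ℕ) : Prop :=
  ∃ d1 d2 d3, P.Cov T d1 ∧ P.Cov T d2 ∧ P.Cov T d3 ∧ d1.a = a ∧ d1.i = i ∧ d2.a = a ∧ d2.i = i ∧
    d3.a = a ∧ d3.i = i ∧ (P.Low d2 ↔ P.Low d1) ∧ (P.Low d2 ↔ P.Low d3) ∧
    P.X d1 < P.X d2 ∧ P.X d2 < P.X d3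

/-- The part has points of the column in three block rows. -/
def MainC (P : Par) (T : List (ℚ × ℚ)) (b j : ℕ) : Prop :=
  ∃ d1 d2 d3, P.Cov T d1 ∧ P.Cov T d2 ∧ P.Cov T d3 ∧ d1.b = b ∧ d1.j = j ∧ d2.b = b ∧ d2.j = j ∧
    d3.b = b ∧ d3.j = j ∧ d1.a < d2.a ∧ d2.a < d3.a

theorem row_small {a i : ℕ} (hm : ¬ P.MainR T a i) (U : Finset Desc)
    (hU : ∀ d ∈ U, P.Cov T d ∧ d.a = a ∧ d.i = i) : U.card ≤ 12 := by
  have key : ∀ V : Finset Desc, V ⊆ U → (∀ d ∈ V, ∀ e ∈ V, P.Low d ↔ P.Low e) → V.card ≤ 3 * 2 := by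
    intro V hV hl
    refine card_le_of_no_chain V P.X 3 (fun d1 h1 d2 h2 d3 h3 x1 x2 => hm ?_) fun d hd => ?_
    · obtain ⟨a1, a2, a3⟩ := hU _ (hV h1)
      obtain ⟨b1, b2, b3⟩ := hU _ (hV h2)
      obtain ⟨c1, c2, c3⟩ := hU _ (hV h3)
      exact ⟨d1, d2, d3, a1, b1, c1, a2, a3, b2, b3, c2, c3, hl _ h2 _ h1, hl _ h2 _ h3, x1, x2⟩
    · refine card_le_three (P := P) _ (fun e he => (hU _ (hV (mem_filter.1 he).1)).1.1) ?_
      intro e he f hf hk
      obtain ⟨a1, a2, a3⟩ := hU _ (hV (mem_filter.1 he).1)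
      obtain ⟨b1, b2, b3⟩ := hU _ (hV (mem_filter.1 hf).1)
      have := X_inj a1.1 b1.1 ((mem_filter.1 he).2.trans (mem_filter.1 hf).2.symm)
      exact Desc.ext' (by omega) (by omega) this.1 this.2 hk
  have e1 := key (U.filter P.Low) (filter_subset _ _) fun d hd e he => by
    simp [(mem_filter.1 hd).2, (mem_filter.1 he).2]
  have e2 := key (U.filter fun d => ¬ P.Low d) (filter_subset _ _) fun d hd e he => by
    simp [(mem_filter.1 hd).2, (mem_filter.1 he).2]
  have := card_filter_add_card_filter_not (s := U) P.Low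
  omega

theorem col_small {b j : ℕ} (hm : ¬ P.MainC T b j) (b1 : 1 ≤ b) (b2 : b ≤ P.S') (U : Finset Desc)
    (hU : ∀ d ∈ U, P.Cov T d ∧ d.b = b ∧ d.j = j) : U.card ≤ 6 := by
  refine card_le_of_no_chain U Desc.a 3 (fun d1 h1 d2 h2 d3 h3 x1 x2 => hm ?_) fun d hd => ?_
  · obtain ⟨a1, a2, a3⟩ := hU _ h1
    obtain ⟨b1, b2, b3⟩ := hU _ h2
    obtain ⟨c1, c2, c3⟩ := hU _ h3
    exact ⟨d1, d2, d3, a1, b1, c1, a2, a3, b2, b3, c2, c3, x1, x2⟩
  · refine card_le_three (P := P) _ (fun e he => (hU _ (mem_filter.1 he).1).1.1) ?_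
    intro e he f hf hk
    obtain ⟨a1, a2, a3⟩ := hU _ (mem_filter.1 he).1
    obtain ⟨c1, c2, c3⟩ := hU _ (mem_filter.1 hf).1
    have ha := (mem_filter.1 he).2.trans (mem_filter.1 hf).2.symm
    exact Desc.ext' ha (i_eq a1.1 c1.1 (by omega) (by omega) ha (by omega) (by omega) hk)
      (by omega) (by omega) hk

theorem MainR.below (hT : ConvexPos T) {a i : ℕ} (h : P.MainR T a i) {z : Desc} (cz : P.Cov T z)
    (hz : z.a < a ∨ (z.a = a ∧ z.i < i)) : False := by
  obtain ⟨d1, d2, d3, c1, c2, c3, a1, i1, a2, i2, a3, i3, l2, l3, x1, x2⟩ := h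
  refine row_below hT c1 c2 c3 cz (by omega) (by omega) (by omega) (by omega) l2 l3 x1 x2 ?_
  rcases hz with hz | hz
  · have := Y_lt (e := d1) cz.1 (by omega); omega
  · unfold Y; rw [a1, i1, hz.1]; omega

theorem MainR.uniq (hT : ConvexPos T) {a i a' i' : ℕ} (h : P.MainR T a i) (h' : P.MainR T a' i') :
    a = a' ∧ i = i' := by
  have ⟨d, _, _, c, _, _, a1, i1, _⟩ := h
  have ⟨d', _, _, c', _, _, a1', i1', _⟩ := h'
  by_contra hc
  by_cases hlt : a < a' ∨ (a = a' ∧ i < i')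
  · exact h'.below hT c (by omega)
  · exact h.below hT c' (by omega)

theorem MainC.left (hT : ConvexPos T) {b j : ℕ} (h : P.MainC T b j) {z : Desc} (cz : P.Cov T z)
    (hz : z.b < b ∨ (z.b = b ∧ z.j < j)) : False := by
  obtain ⟨d1, d2, d3, c1, c2, c3, a1, i1, a2, i2, a3, i3, x1, x2⟩ := h
  refine col_left hT c1 c2 c3 cz (by unfold X; rw [a1, a2, i1, i2])
    (by unfold X; rw [a1, a3, i1, i3]) x1 x2 ?_
  rcases hz with hz | hz
  · have := X_lt (e := d1) cz.1 (by omega)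
    have := P.G1_ge
    omega
  · unfold X; rw [a1, i1, hz.1]; omega

theorem MainC.uniq (hT : ConvexPos T) {b j b' j' : ℕ} (h : P.MainC T b j) (h' : P.MainC T b' j') :
    b = b' ∧ j = j' := by
  have ⟨d, _, _, c, _, _, a1, i1, _⟩ := h
  have ⟨d', _, _, c', _, _, a1', i1', _⟩ := h'
  by_contra hc
  by_cases hlt : b < b' ∨ (b = b' ∧ j < j')
  · exact h'.left hT c (by omega)
  · exact h.left hT c' (by omega)

theorem MainC.other {b j : ℕ} (h : P.MainC T b j) (a : ℕ) :
    ∃ z, P.Cov T z ∧ z.a ≠ a ∧ z.b = b ∧ z.j = j := by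
  obtain ⟨d1, d2, d3, c1, c2, -, b1, j1, b2, j2, -, -, x1, -⟩ := h
  by_cases e : d1.a = a
  · exact ⟨d2, c2, by omega, b2, j2⟩
  · exact ⟨d1, c1, e, b1, j1⟩

/-- An optional point covered by a part that is main neither in its row nor in its column. -/
def Cheat (P : Par) (T : List (ℚ × ℚ)) (d : Desc) : Prop :=
  P.Cov T d ∧ P.Opt d ∧ ¬ P.MainR T d.a d.i ∧ ¬ P.MainC T d.b d.j

theorem cheat_group (U : Finset Desc) (hU : ∀ d ∈ U, P.Cheat T d)
    (hg : ∀ d ∈ U, ∀ e ∈ U, P.grp d.a = P.grp e.a) : U.card ≤ 12 * (P.R0 * P.I) := by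
  have := card_le_mul_card_image_of_maps_to (s := U) (t := range P.R0 ×ˢ range P.I)
    (f := fun d => ((d.a - P.Q) % P.R0, d.i)) (fun d hd => by
      simp only [mem_product, mem_range]
      exact ⟨Nat.mod_lt _ P.R0_pos, (hU d hd).2.1.i_lt⟩) 12 (by
      intro z _
      rcases (U.filter fun d => ((d.a - P.Q) % P.R0, d.i) = z).eq_empty_or_nonempty with h | ⟨d, hd⟩
      · rw [h]; simp
      · obtain ⟨hd1, hd2⟩ := mem_filter.1 hd
        refine row_small (hU d hd1).2.2.1 _ fun e he => ?_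
        obtain ⟨he1, he2⟩ := mem_filter.1 he
        have h1 := he2.trans hd2.symm
        simp only [Prod.mk.injEq] at h1
        have h2 := hg e he1 d hd1
        unfold grp at h2
        have h3 := Nat.div_add_mod (d.a - P.Q) P.R0
        have h4 := Nat.div_add_mod (e.a - P.Q) P.R0
        rw [h2, h1.1] at h4
        have := (hU d hd1).2.1.1
        have := (hU e he1).2.1.1
        exact ⟨(hU e he1).1, by omega, h1.2⟩)
  simpa using this

theorem cheat_card (hT : ConvexPos T) (U : Finset Desc) (hU : ∀ d ∈ U, P.Cheat T d) :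
    U.card ≤ 12 * P.NG + 24 * (P.R0 * P.I) := by
  classical
  let lo : Desc → Prop := fun d => ∀ e ∈ U, P.grp d.a ≤ P.grp e.a
  let hi : Desc → Prop := fun d => ∀ e ∈ U, P.grp e.a ≤ P.grp d.a
  have e1 := cheat_group (U.filter lo) (fun d hd => hU d (mem_filter.1 hd).1) fun d hd e he =>
    le_antisymm ((mem_filter.1 hd).2 e (mem_filter.1 he).1) ((mem_filter.1 he).2 d (mem_filter.1 hd).1)
  have e2 := cheat_group ((U.filter fun d => ¬ lo d).filter hi)
    (fun d hd => hU d (mem_filter.1 (mem_filter.1 hd).1).1) fun d hd e he =>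
    le_antisymm ((mem_filter.1 he).2 d (mem_filter.1 (mem_filter.1 hd).1).1)
      ((mem_filter.1 hd).2 e (mem_filter.1 (mem_filter.1 he).1).1)
  have e3 := card_filter_add_card_filter_not (s := U) lo
  have e4 := card_filter_add_card_filter_not (s := U.filter fun d => ¬ lo d) hi
  have e5 := card_le_mul_card_image_of_maps_to
    (s := (U.filter fun d => ¬ lo d).filter fun d => ¬ hi d) (t := range P.NG)
    (f := fun d => P.grp d.a) (fun d hd => by
      have h1 := (hU d (mem_filter.1 (mem_filter.1 hd).1).1).2.1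
      have h2 := P.S_eq
      rw [mem_range]
      refine Nat.div_lt_of_lt_mul ?_
      rw [Nat.mul_comm]
      unfold Opt at h1
      omega) 12 (by
      intro γ _
      have mem : ∀ d ∈ ((U.filter fun d => ¬ lo d).filter fun d => ¬ hi d).filter
          fun d => P.grp d.a = γ, P.Cheat T d ∧ ¬ lo d ∧ ¬ hi d ∧ P.grp d.a = γ := by
        intro d hd
        simp only [mem_filter] at hd
        exact ⟨hU d hd.1.1.1, hd.1.1.2, hd.1.2, hd.2⟩
      refine card_le_of_no_chain _ P.X 6 (fun d1 h1 d2 h2 d3 h3 x1 x2 => ?_) fun d hd => ?_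
      · obtain ⟨c1, -, -, g1⟩ := mem _ h1
        obtain ⟨c2, l2, u2, g2⟩ := mem _ h2
        obtain ⟨c3, -, -, g3⟩ := mem _ h3
        simp only [lo, hi, not_forall, not_le] at l2 u2
        obtain ⟨zl, hl, gl⟩ := l2
        obtain ⟨zu, hu, gu⟩ := u2
        exact thin_group hT c1.1 c2.1 c3.1 (hU _ hl).1 (hU _ hu).1 c1.2.1.1 c2.2.1.1 c3.2.1.1
          (by omega) (by omega) x1 x2 gl gu
      · obtain ⟨c1, -⟩ := mem _ hd
        refine col_small c1.2.2.2 c1.2.1.2.2.1 c1.2.1.2.2.2.1 _ fun e he => ?_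
        obtain ⟨c2, -⟩ := mem _ (mem_filter.1 he).1
        exact ⟨c2.1, X_inj c2.1.1 c1.1.1 (mem_filter.1 he).2⟩)
  rw [card_range] at e5
  omega

end

section
variable {P : Par} {y : List (List (ℚ × ℚ))}

def HonR (P : Par) (y : List (List (ℚ × ℚ))) (a i : ℕ) : Prop :=
  ∀ T ∈ y, ∀ T' ∈ y, P.MainR T a i → P.MainR T' a i → T = T'

def HonC (P : Par) (y : List (List (ℚ × ℚ))) (b j : ℕ) : Prop :=
  ∀ T ∈ y, ∀ T' ∈ y, P.MainC T b j → P.MainC T' b j → T = T'

def Val (P : Par) (y : List (List (ℚ × ℚ))) (a i b : ℕ) : Prop :=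
  ∃ T ∈ y, P.MainR T a i ∧ ∃ d, P.Cov T d ∧ d.a = a ∧ d.i = i ∧ d.b = b ∧ P.Low d

open Classical in
noncomputable def pick (P : Par) (y : List (List (ℚ × ℚ))) (s t v : ℕ) : ℕ :=
  ((List.range P.I).filter fun i =>
    decide (role P.qA P.g t i = v ∧ P.HonR y (P.Q + s) i)).headD 0

open Classical in
/-- The assignment read off the block `(s, t)`. -/
noncomputable def asg (P : Par) (y : List (List (ℚ × ℚ))) (s t v : ℕ) : Bool :=
  decide (P.Val y (P.Q + s) (P.pick y s t v) (t + 1))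

/-- A cover of all points by few sets in convex position. -/
structure Ctx (P : Par) (y : List (List (ℚ × ℚ))) : Prop where
  conv : ∀ T ∈ y, ConvexPos T
  cov : ∀ d, P.Valid d → ∃ T ∈ y, P.pt d ∈ T
  len : y.length ≤ P.Pm

theorem Ctx.exR (H : P.Ctx y) {a i b : ℕ} (a1 : P.Q ≤ a) (a2 : a < P.Q + P.S) (hi : i < P.I)
    (hb : b = 0 ∨ b = P.S' + 1) :
    ∃ T ∈ y, P.MainR T a i ∧ ∃ d, P.Cov T d ∧ d.a = a ∧ d.i = i ∧ d.b = b ∧ d.k = 0 := by
  by_contra hc
  have := card_le_parts (range P.Q) y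
    (fun T d => ¬ P.MainR T a i ∧ P.Cov T d ∧ d.a = a ∧ d.i = i) 12 Desc.j (by
      intro j hj
      have hv : P.Valid ⟨a, i, b, j, 0⟩ := Or.inl ⟨a1, a2, hi, hb, mem_range.1 hj, rfl⟩
      obtain ⟨T, hT, h⟩ := H.cov _ hv
      exact ⟨T, hT, _, ⟨fun hm => hc ⟨T, hT, hm, _, ⟨hv, h⟩, rfl, rfl, rfl, rfl⟩, ⟨hv, h⟩, rfl, rfl⟩,
        rfl⟩) (by
      intro T _ U hU
      rcases U.eq_empty_or_nonempty with h | ⟨d, hd⟩
      · simp [h]
      · exact row_small (hU d hd).1 U fun e he => (hU e he).2)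
  have h1 := H.len
  have h2 := P.Pm_lt_Q
  rw [card_range] at this
  omega

theorem Ctx.exC (H : P.Ctx y) {b j : ℕ} (b1 : 1 ≤ b) (b2 : b ≤ P.S') (hj : j < P.J) :
    ∃ T ∈ y, P.MainC T b j ∧ ∃ d, P.Cov T d ∧ d.a < P.Q := by
  by_contra hc
  have := card_le_parts (range P.Q) y
    (fun T d => ¬ P.MainC T b j ∧ P.Cov T d ∧ d.b = b ∧ d.j = j) 6 Desc.a (by
      intro a ha
      have hv : P.Valid ⟨a, 0, b, j, 0⟩ := Or.inr (Or.inl ⟨mem_range.1 ha, rfl, b1, b2, hj, rfl⟩)
      obtain ⟨T, hT, h⟩ := H.cov _ hv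
      exact ⟨T, hT, _, ⟨fun hm => hc ⟨T, hT, hm, _, ⟨hv, h⟩, mem_range.1 ha⟩, ⟨hv, h⟩, rfl, rfl⟩,
        rfl⟩) (by
      intro T _ U hU
      rcases U.eq_empty_or_nonempty with h | ⟨d, hd⟩
      · simp [h]
      · exact col_small (hU d hd).1 b1 b2 U fun e he => (hU e he).2)
  have h1 := H.len
  have h2 := P.Pm_lt_Q
  rw [card_range] at this
  omega

open Classical in
theorem Ctx.countR (H : P.Ctx y) :
    5 * (P.L * P.K) + ∑ s ∈ range P.S,
      ((range P.I).filter fun i => ¬ P.HonR y (P.Q + s) i).card ≤ y.length := by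
  have := count_gen y (range P.S ×ˢ range P.I) (range P.S' ×ˢ range P.J)
    (fun T u => P.MainR T (P.Q + u.1) u.2) (fun T v => P.MainC T (v.1 + 1) v.2)
    (fun T => ∃ d, P.Cov T d ∧ d.a < P.Q) (by
      intro u hu
      simp only [mem_product, mem_range] at hu
      obtain ⟨T, hT, h, -⟩ := H.exR (a := P.Q + u.1) (by omega) (by omega) hu.2 (Or.inl rfl)
      exact ⟨T, hT, h⟩) (by
      intro v hv
      simp only [mem_product, mem_range] at hv
      exact H.exC (by omega) (by omega) hv.2) (by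
      rintro T hT u - h ⟨d, hd, hq⟩
      exact h.below (H.conv T hT) hd (by omega)) (by
      intro T hT u _ u' _ h h'
      have := h.uniq (H.conv T hT) h'
      exact Prod.ext (by omega) this.2) (by
      intro T hT u _ u' _ h h'
      have := h.uniq (H.conv T hT) h'
      exact Prod.ext (by omega) this.2)
  rw [card_product, card_product, card_range, card_range, card_range, card_range, P.S_I, P.S'_J,
    card_filter_prod _ _ _ (fun s i => ¬ P.HonR y (P.Q + s) i) (fun _ _ => Iff.rfl)] at this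
  omega

open Classical in
theorem Ctx.countC (H : P.Ctx y) :
    5 * (P.L * P.K) + ∑ t ∈ range P.S',
      ((range P.J).filter fun j => ¬ P.HonC y (t + 1) j).card ≤ y.length := by
  have := count_gen y (range P.S' ×ˢ range P.J) (range P.S ×ˢ range P.I)
    (fun T v => P.MainC T (v.1 + 1) v.2) (fun T u => P.MainR T (P.Q + u.1) u.2)
    (fun T => ∃ d, P.Cov T d ∧ d.b = 0) (by
      intro v hv
      simp only [mem_product, mem_range] at hv
      obtain ⟨T, hT, h, -⟩ := H.exC (b := v.1 + 1) (by omega) (by omega) hv.2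
      exact ⟨T, hT, h⟩) (by
      intro u hu
      simp only [mem_product, mem_range] at hu
      obtain ⟨T, hT, h, d, h1, -, -, h2, -⟩ :=
        H.exR (a := P.Q + u.1) (by omega) (by omega) hu.2 (Or.inl rfl)
      exact ⟨T, hT, h, d, h1, h2⟩) (by
      rintro T hT u - h ⟨d, hd, hq⟩
      exact h.left (H.conv T hT) hd (by omega)) (by
      intro T hT u _ u' _ h h'
      have := h.uniq (H.conv T hT) h'
      exact Prod.ext (by omega) this.2) (by
      intro T hT u _ u' _ h h'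
      have := h.uniq (H.conv T hT) h'
      exact Prod.ext (by omega) this.2)
  rw [card_product, card_product, card_range, card_range, card_range, card_range, P.S_I, P.S'_J,
    card_filter_prod _ _ _ (fun t j => ¬ P.HonC y (t + 1) j) (fun _ _ => Iff.rfl)] at this
  omega

theorem Ctx.lit_true (H : P.Ctx y) {T : List (ℚ × ℚ)} (hT : T ∈ y) {d : Desc} (cd : P.Cov T d)
    (od : P.Opt d) (hm : P.MainR T d.a d.i) (hh : P.HonR y d.a d.i) :
    P.Val y d.a d.i d.b ↔ P.Low d := by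
  refine ⟨?_, fun h => ⟨T, hT, hm, d, cd, rfl, rfl, rfl, h⟩⟩
  rintro ⟨T', hT', hm', p, cp, a1, a2, a3, lp⟩
  by_contra lq
  obtain rfl := hh _ hT _ hT' hm hm'
  obtain ⟨T1, hT1, m1, l, cl, l1, l2, l3, l4⟩ := H.exR od.1 od.2.1 od.i_lt (Or.inl rfl)
  obtain ⟨T2, hT2, m2, r, cr, r1, r2, r3, r4⟩ := H.exR od.1 od.2.1 od.i_lt (Or.inr rfl)
  obtain rfl := hh _ hT _ hT1 hm m1
  obtain rfl := hh _ hT _ hT2 hm m2
  have op : P.Opt p := by
    unfold Low at lp
    rcases cp.1 with h | h | h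
    · unfold RM at h; omega
    · unfold CM at h; omega
    · exact h
  exact one_track (H.conv _ hT) cl cr cp cd (by omega) (by omega) (by omega) (by omega) (by omega)
    (by omega) l3 l4 r3 r4 op od a3 lp lq

theorem Ctx.decode (H : P.Ctx y) (h3 : ∀ φ ∈ P, ∀ c ∈ φ, c.length = 3) {s t : ℕ} (hs : s < P.S)
    (ht : t < P.S') (hA : ∀ v < P.n, ∃ i < P.I, role P.qA P.g t i = v ∧ P.HonR y (P.Q + s) i)
    (hB : ∀ v < P.nB, ∃ j < P.J, role P.qB P.g s j = v ∧ P.HonC y (t + 1) j)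
    (hC : ∀ T ∈ y, ∀ d, P.Cheat T d → d.a = P.Q + s → d.b ≠ t + 1) :
    Sat (P.asg y s t) (P.fml (s / P.SA)) := by
  classical
  intro c hc
  have hp : ∀ x ∈ c, P.pick y s t x.1 < P.I ∧ role P.qA P.g t (P.pick y s t x.1) = x.1 ∧
      P.HonR y (P.Q + s) (P.pick y s t x.1) := by
    intro x hx
    obtain ⟨i, h1, h2⟩ := hA _ (var_lt hc hx)
    have := headD_filter (l := List.range P.I) (p := fun i =>
      decide (role P.qA P.g t i = x.1 ∧ P.HonR y (P.Q + s) i)) ⟨i, by simpa using h1, by simpa using h2⟩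
    simpa [pick] using this
  obtain ⟨ci, hci, hc'⟩ := List.getElem_of_mem hc
  obtain ⟨l0, l1, l2, rfl⟩ := List.length_eq_three.1 (h3 _ (fml_mem hc) _ hc)
  obtain ⟨p0, r0, o0⟩ := hp l0 (by simp)
  obtain ⟨p1, r1, o1⟩ := hp l1 (by simp)
  obtain ⟨p2, r2, o2⟩ := hp l2 (by simp)
  obtain ⟨e0, e1, e2, e3⟩ := digits (c := ci) p0 p1 p2
  have hci' : ci + 1 ≤ P.n := by
    have := length_le_sz (P.fml (s / P.SA))
    have := sz_le_of_mem (fml_mem hc)
    unfold n
    omega
  obtain ⟨j, hj, hr, hon⟩ := hB (P.pick y s t l0.1 + P.I * (P.pick y s t l1.1 +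
      P.I * (P.pick y s t l2.1 + P.I * ci))) (by
    have a1 : P.pick y s t l2.1 + P.I * ci + 1 ≤ P.I * P.n := by
      have := Nat.mul_le_mul_left P.I hci'
      rw [Nat.mul_add] at this
      omega
    have a2 : P.pick y s t l1.1 + P.I * (P.pick y s t l2.1 + P.I * ci) + 1 ≤ P.I * (P.I * P.n) := by
      have := Nat.mul_le_mul_left P.I a1
      rw [Nat.mul_add] at this
      omega
    have a3 := Nat.mul_le_mul_left P.I a2
    rw [Nat.mul_add] at a3
    have : P.nB = P.I * (P.I * (P.I * P.n)) := by unfold nB; ring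
    omega)
  have hcl : P.cl s j = ci := by unfold cl rho; rw [hr]; exact e3
  have hlit : ∀ k, P.lit s j k = [l0, l1, l2].getD k (0, false) := by
    intro k
    unfold lit
    rw [hcl, List.getD_eq_getElem _ _ hci, hc']
  have t0 : P.tgt s j 0 = P.pick y s t l0.1 := by unfold tgt rho; rw [hr]; simpa using e0
  have t1 : P.tgt s j 1 = P.pick y s t l1.1 := by unfold tgt rho; rw [hr]; simpa using e1
  have t2 : P.tgt s j 2 = P.pick y s t l2.1 := by unfold tgt rho; rw [hr]; simpa using e2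
  have act : P.Act s t j := ⟨by rw [hcl]; exact hci, by rw [t0, hlit]; exact r0,
    by rw [t1, hlit]; exact r1, by rw [t2, hlit]; exact r2⟩
  have key : ∀ k < 3, ∀ l ∈ [l0, l1, l2], P.lit s j k = l → P.tgt s j k = P.pick y s t l.1 →
      P.asg y s t l.1 = l.2 ∨ ∃ T ∈ y, P.MainC T (t + 1) j ∧
        P.Cov T ⟨P.Q + s, P.tgt s j k, t + 1, j, k⟩ := by
    intro k hk l hl e1 e2
    have od : P.Opt ⟨P.Q + s, P.tgt s j k, t + 1, j, k⟩ :=
      ⟨by simp, by simpa using hs, by simp, ht, hj, hk, by simpa using act, by simp⟩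
    obtain ⟨T, hT, h⟩ := H.cov _ (Or.inr (Or.inr od))
    have cd : P.Cov T ⟨P.Q + s, P.tgt s j k, t + 1, j, k⟩ := ⟨Or.inr (Or.inr od), h⟩
    by_cases hmc : P.MainC T (t + 1) j
    · exact Or.inr ⟨T, hT, hmc, cd⟩
    · left
      have hmr : P.MainR T (P.Q + s) (P.tgt s j k) := by
        by_contra hmr
        exact hC T hT _ ⟨cd, od, hmr, hmc⟩ rfl rfl
      have := H.lit_true hT cd od hmr (by rw [e2]; exact (hp l hl).2.2)
      simp only [Low, Nat.add_sub_cancel_left, e1, e2] at this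
      rw [Bool.eq_iff_iff, asg, decide_eq_true_iff, this]
      simp only [and_iff_right_iff_imp, ← and_assoc]
      omega
  rcases key 0 (by omega) l0 (by simp) (hlit 0) t0 with h0 | ⟨T0, hT0, m0, c0⟩
  · exact ⟨l0, by simp, h0⟩
  rcases key 1 (by omega) l1 (by simp) (hlit 1) t1 with h1 | ⟨T1, hT1, m1, c1⟩
  · exact ⟨l1, by simp, h1⟩
  rcases key 2 (by omega) l2 (by simp) (hlit 2) t2 with h2 | ⟨T2, hT2, m2, c2⟩
  · exact ⟨l2, by simp, h2⟩
  obtain rfl := hon _ hT0 _ hT1 m0 m1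
  obtain rfl := hon _ hT0 _ hT2 m0 m2
  obtain ⟨z, cz, az, bz, jz⟩ := m0.other (P.Q + s)
  exact (three_lits (H.conv _ hT0) c0 c1 c2 rfl rfl rfl rfl (by simp) (by simp) (by simp) cz az
    (by unfold X; rw [bz, jz])).elim

open Classical in
theorem Ctx.good (H : P.Ctx y) (h3 : ∀ φ ∈ P, ∀ c ∈ φ, c.length = 3) (hL : 2 ≤ P.L) {l : ℕ}
    (hl : l < P.L)
    (hR : P.κ * ∑ s ∈ Ico (l * P.SA) (l * P.SA + P.SA),
      ((range P.I).filter fun i => ¬ P.HonR y (P.Q + s) i).card + 2 * P.K ≤ P.κ * P.K) :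
    ∃ s < P.S, ∃ t < P.S', Sat (P.asg y s t) (P.fml l) := by
  have hκ : 4 ≤ P.κ := by unfold κ; omega
  have hC := H.countC
  have hlen := H.len
  have mA := markov (Ico (l * P.SA) (l * P.SA + P.SA))
    (fun s => ((range P.I).filter fun i => ¬ P.HonR y (P.Q + s) i).card) P.κ P.I P.I_pos
    (by simpa [K] using hR)
  have mB := markov (range P.S')
    (fun t => ((range P.J).filter fun j => ¬ P.HonC y (t + 1) j).card) P.κ P.J P.J_pos (by
      rw [card_range, P.S'_J]
      unfold Pm at hlen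
      generalize ∑ t ∈ range P.S', ((range P.J).filter fun j => ¬ P.HonC y (t + 1) j).card = W at *
      have : W ≤ 2 * (P.L * P.K) := by omega
      nlinarith only [hlen, hC, hκ])
  rw [Nat.card_Ico, Nat.add_sub_cancel_left] at mA
  rw [card_range] at mB
  set A := (Ico (l * P.SA) (l * P.SA + P.SA)).filter fun s =>
    P.κ * ((range P.I).filter fun i => ¬ P.HonR y (P.Q + s) i).card + P.I ≤ P.κ * P.I with hA
  set B := (range P.S').filter fun t =>
    P.κ * ((range P.J).filter fun j => ¬ P.HonC y (t + 1) j).card + P.J ≤ P.κ * P.J with hB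
  have cA : A.card ≤ P.SA := (card_filter_le _ _).trans (by simp)
  have cB : B.card ≤ P.S' := (card_filter_le _ _).trans (by simp)
  have eS' : P.S' = P.qA * (4 * P.L * P.qA * P.R0 ^ 2) := by unfold S' I; ring
  have eSA : P.SA = P.qB * (P.qB * P.R0 ^ 2) := by unfold SA J; ring
  have hS : l * P.SA + P.SA ≤ P.S := by
    have := Nat.mul_le_mul_right P.SA (Nat.succ_le_of_lt hl)
    rw [Nat.succ_mul] at this
    exact this
  have b1 := card_pairs_le A (fun s => (Ico 0 (0 + P.S')).filter fun t =>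
    ∃ v < P.n, ∀ i < P.I, role P.qA P.g t i = v → ¬ P.HonR y (P.Q + s) i) (fun s t => (s, t))
    (4 * P.κ ^ 2) P.S' (by
      intro s hs
      rw [eS']
      exact fiber_bound P.qA_prime (by omega) P.qA_ge _ (mem_filter.1 hs).2 _ _)
  have b2 := card_pairs_le B (fun t => (Ico (l * P.SA) (l * P.SA + P.SA)).filter fun s =>
    ∃ v < P.nB, ∀ j < P.J, role P.qB P.g s j = v → ¬ P.HonC y (t + 1) j) (fun t s => (s, t))
    (4 * P.κ ^ 2) P.SA (by
      intro t ht
      have := fiber_bound P.qB_prime (by omega) P.qB_ge _ (mem_filter.1 ht).2 (l * P.SA)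
        (P.qB * P.R0 ^ 2)
      rw [← eSA] at this
      exact this)
  have b3 := card_le_parts ((range P.S ×ˢ range P.S').filter fun z =>
    ∃ T ∈ y, ∃ d, P.Cheat T d ∧ d.a = P.Q + z.1 ∧ d.b = z.2 + 1) y P.Cheat
    (12 * P.NG + 24 * (P.R0 * P.I)) (fun d => (d.a - P.Q, d.b - 1)) (by
      intro z hz
      obtain ⟨T, hT, d, h1, h2, h3⟩ := (mem_filter.1 hz).2
      exact ⟨T, hT, d, h1, Prod.ext (by simp [h2]) (by simp [h3])⟩)
    (fun T hT U hU => cheat_card (H.conv T hT) U hU)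
  obtain ⟨s, hs, t, ht, n1, n2, n3⟩ := exists_good_pair A B _ _ _ P.κ P.SA P.S' mA mB
    (b1.trans (Nat.mul_le_mul_right _ cA))
    (b2.trans ((Nat.mul_le_mul_right _ cB).trans (le_of_eq (Nat.mul_comm _ _))))
    (lt_of_le_of_lt (Nat.mul_le_mul_left _ (b3.trans ((Nat.mul_le_mul_left _ hlen).trans
      (le_of_eq (Nat.mul_comm _ _))))) (P.cheat_lt (by omega)))
  have hs1 := mem_Ico.1 (mem_filter.1 hs).1
  have ht1 := mem_range.1 (mem_filter.1 ht).1
  have hsl : s / P.SA = l := by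
    rw [Nat.div_eq_iff P.SA_pos]; omega
  refine ⟨s, by omega, t, ht1, ?_⟩
  rw [← hsl]
  refine H.decode h3 (by omega) ht1 ?_ ?_ ?_
  · intro v hv
    by_contra hc
    refine n1 (mem_biUnion.2 ⟨s, hs, mem_image.2 ⟨t, mem_filter.2 ⟨by simpa using ht1, v, hv, ?_⟩,
      rfl⟩⟩)
    exact fun i hi h1 h2 => hc ⟨i, hi, h1, h2⟩
  · intro v hv
    by_contra hc
    refine n2 (mem_biUnion.2 ⟨t, ht, mem_image.2 ⟨s, mem_filter.2 ⟨mem_Ico.2 hs1, v, hv, ?_⟩,
      rfl⟩⟩)
    exact fun i hi h1 h2 => hc ⟨i, hi, h1, h2⟩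
  · intro T hT d hd h1 h2
    exact n3 (mem_filter.2 ⟨by simp; omega, T, hT, d, hd, h1, h2⟩)

open Classical in
theorem Ctx.unsolved (H : P.Ctx y) (h3 : ∀ φ ∈ P, ∀ c ∈ φ, c.length = 3) (hL : 2 ≤ P.L) {u : ℕ}
    (hy : y.length ≤ 5 * (P.L * P.K) + (u + 1) * P.K) :
    ((range P.L).filter fun l => ¬ ∃ s < P.S, ∃ t < P.S', Sat (P.asg y s t) (P.fml l)).card ≤
      u + 2 := by
  have h1 := H.countR
  rw [S, ← sum_segments] at h1
  set V := (range P.L).filter fun l => ¬ ∃ s < P.S, ∃ t < P.S', Sat (P.asg y s t) (P.fml l)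
  have h2 : V.card * (P.κ * P.K) ≤ ∑ l ∈ V, (P.κ * ∑ s ∈ Ico (l * P.SA) (l * P.SA + P.SA),
      ((range P.I).filter fun i => ¬ P.HonR y (P.Q + s) i).card + 2 * P.K) := by
    refine card_nsmul_le_sum _ _ _ fun l hl => ?_
    by_contra hc
    exact (mem_filter.1 hl).2 (H.good h3 hL (mem_range.1 (mem_filter.1 hl).1) (by omega))
  rw [sum_add_distrib, ← mul_sum, sum_const, smul_eq_mul] at h2
  have h4 := sum_le_sum_of_subset (f := fun l => ∑ s ∈ Ico (l * P.SA) (l * P.SA + P.SA),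
      ((range P.I).filter fun i => ¬ P.HonR y (P.Q + s) i).card) (filter_subset _ _ : V ⊆ range P.L)
  have h5 : V.card ≤ P.L := (card_filter_le _ _).trans (by simp)
  generalize ∑ l ∈ V, ∑ s ∈ Ico (l * P.SA) (l * P.SA + P.SA),
      ((range P.I).filter fun i => ¬ P.HonR y (P.Q + s) i).card = W at *
  have h6 : W ≤ (u + 1) * P.K := by omega
  have h7 := Nat.mul_le_mul_left P.κ h6
  have h8 : V.card * (2 * P.K) ≤ P.κ * P.K := by
    unfold κ; nlinarith only [h5]
  refine Nat.le_of_mul_le_mul_right ?_ (Nat.mul_pos (show 0 < P.κ by unfold κ; omega) P.K_pos)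
  linarith only [h2, h7, h8]

end

section
variable {P : Par}

/-- The configuration. -/
noncomputable def cfg (P : Par) : List (ℚ × ℚ) := ded (P.descs.map P.pt)

theorem mem_cfg {p : ℚ × ℚ} : p ∈ P.cfg ↔ ∃ d, P.Valid d ∧ P.pt d = p := by
  simp only [cfg, mem_ded, List.mem_map, mem_descs]

theorem fun_lift {d e : Desc} (hd : P.Valid d) (he : P.Valid e) {α β : ℤ} {α' β' : ℚ}
    (h1 : α' = α) (h2 : β' = β) (hα : |α| ≤ P.Bd) (hβ : |β| ≤ P.Bd)
    (h : α' * (Pool.Agent.Work.MP_32aa60_lc.Par.pt P d).1 +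
      β' * (Pool.Agent.Work.MP_32aa60_lc.Par.pt P d).2 <
      α' * (Pool.Agent.Work.MP_32aa60_lc.Par.pt P e).1 +
      β' * (Pool.Agent.Work.MP_32aa60_lc.Par.pt P e).2) :
    α' * (P.pt d).1 + β' * pM P.Bd * (P.pt d).2 < α' * (P.pt e).1 + β' * pM P.Bd * (P.pt e).2 := by
  subst h1 h2
  simp only [Pool.Agent.Work.MP_32aa60_lc.Par.pt] at h
  have := fun_pert (xN_le hd) (yN_le hd) (xN_le he) (yN_le he) hα hβ (by exact_mod_cast h)
  simp only [pt, xP, yP]
  exact_mod_cast this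

theorem row_fun {d e : Desc} (hd : P.Valid d) (he : P.Valid e) (ha : e.a = d.a) (hi : e.i = d.i)
    (h : d.b ≠ e.b ∨ (P.X d ≠ P.X e ∧ (P.Low d ↔ P.Low e))) :
    (-2 * P.X d : ℚ) * (P.pt d).1 +
        ((P.E : ℚ) ^ 2 + 4 * P.X d * P.c d.a) * pM P.Bd * (P.pt d).2 <
      (-2 * P.X d : ℚ) * (P.pt e).1 +
        ((P.E : ℚ) ^ 2 + 4 * P.X d * P.c d.a) * pM P.Bd * (P.pt e).2 := by
  obtain ⟨h1, -, -, h4, -⟩ := hd.nat_bd
  obtain ⟨e1, e2, e3, e4, e5⟩ := E_facts P
  have h5 : P.c d.a ≤ P.Z := by unfold Y at h4; omega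
  have h6 : P.X d * P.c d.a ≤ P.Z ^ 2 := by rw [sq]; exact Nat.mul_le_mul h1 h5
  have hB : P.Bd = 3 * P.E ^ 3 := rfl
  refine fun_lift hd he (α := -2 * P.X d) (β := (P.E ^ 2 + 4 * (P.X d * P.c d.a) : ℕ))
    (by push_cast; ring) (by push_cast; ring) (abs_le.2 ⟨by omega, by omega⟩)
    (abs_le.2 ⟨by omega, by omega⟩) (Pool.Agent.Work.MP_32aa60_lc.Par.row_fun hd he ha hi h)

theorem col_lift {d e : Desc} (hd : P.Valid d) (he : P.Valid e) (s : ℤ) (hs : s = 1 ∨ s = -1)
    (h : (1 : ℚ) * (Pool.Agent.Work.MP_32aa60_lc.Par.pt P d).1 +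
      -(2 * P.c d.a + s) * (Pool.Agent.Work.MP_32aa60_lc.Par.pt P d).2 <
      1 * (Pool.Agent.Work.MP_32aa60_lc.Par.pt P e).1 +
      -(2 * P.c d.a + s) * (Pool.Agent.Work.MP_32aa60_lc.Par.pt P e).2) :
    (1 : ℚ) * (P.pt d).1 + -(2 * P.c d.a + s) * pM P.Bd * (P.pt d).2 <
      1 * (P.pt e).1 + -(2 * P.c d.a + s) * pM P.Bd * (P.pt e).2 := by
  obtain ⟨-, -, -, h4, -⟩ := hd.nat_bd
  obtain ⟨e1, e2, e3, e4, e5⟩ := E_facts P
  have h5 : P.c d.a ≤ P.Z := by unfold Y at h4; omega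
  have hB : P.Bd = 3 * P.E ^ 3 := rfl
  exact fun_lift hd he (α := 1) (β := -(2 * P.c d.a + s)) (by push_cast; ring)
    (by push_cast; ring) (abs_le.2 ⟨by omega, by omega⟩) (abs_le.2 ⟨by omega, by omega⟩) h

open Classical in
theorem CP_cfg_le (h3 : ∀ φ ∈ P, ∀ c ∈ φ, c.length = 3) :
    CP P.cfg ≤ 5 * (P.L * P.K) +
      ((range P.L).filter fun l => ¬ ∃ A, Sat A (P.fml l)).card * P.K := by
  have hA : ∀ l, ∃ A, (∃ A, Sat A (P.fml l)) → Sat A (P.fml l) := fun l => by
    by_cases h : ∃ A, Sat A (P.fml l)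
    · obtain ⟨A, h⟩ := h; exact ⟨A, fun _ => h⟩
    · exact ⟨fun _ => false, fun h' => absurd h' h⟩
  choose A hA using hA
  have hsel : ∀ s j, ∃ k < 3, (∃ A, Sat A (P.fml (s / P.SA))) →
      P.cl s j < (P.fml (s / P.SA)).length → A (s / P.SA) (P.lit s j k).1 = (P.lit s j k).2 := by
    intro s j
    by_cases h : (∃ A, Sat A (P.fml (s / P.SA))) ∧ P.cl s j < (P.fml (s / P.SA)).length
    · have hc := List.getElem_mem h.2
      obtain ⟨l, hl, e⟩ := hA _ h.1 _ hc
      obtain ⟨k, hk, rfl⟩ := List.getElem_of_mem hl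
      refine ⟨k, by rwa [h3 _ (fml_mem hc) _ hc] at hk, fun _ _ => ?_⟩
      unfold lit
      rw [List.getD_eq_getElem _ _ h.2, List.getD_eq_getElem _ _ hk]
      exact e
    · exact ⟨0, by omega, fun h1 h2 => absurd ⟨h1, h2⟩ h⟩
  choose sel hs3 hsel using hsel
  let sat : Desc → Prop := fun d => ∃ A, Sat A (P.fml ((d.a - P.Q) / P.SA))
  let cD : (ℕ × ℕ) ⊕ (ℕ × ℕ) ⊕ (ℕ × ℕ) → Desc → Prop
    | .inl z, d => d.a = P.Q + z.1 ∧ d.i = z.2 ∧
        (P.RM d ∨ (P.Opt d ∧ d.k = sel (d.a - P.Q) d.j ∧ (sat d ∨ ¬ P.Low d)))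
    | .inr (.inl z), d => d.b = z.1 + 1 ∧ d.j = z.2 ∧
        (P.CM d ∨ (P.Opt d ∧ d.k ≠ sel (d.a - P.Q) d.j))
    | .inr (.inr z), d => d.a = P.Q + z.1 ∧ d.i = z.2 ∧
        P.Opt d ∧ d.k = sel (d.a - P.Q) d.j ∧ P.Low d
  have rowX : ∀ d e : Desc, P.Opt d → P.Opt e → e.a = d.a → e.i = d.i → d.b = e.b →
      d.k = sel (d.a - P.Q) d.j → e.k = sel (e.a - P.Q) e.j → P.pt e ≠ P.pt d →
      P.X d ≠ P.X e := by
    intro d e od oe ha hi hb kd ke hne hx
    have := X_inj (Or.inr (Or.inr od)) (Or.inr (Or.inr oe)) hx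
    exact hne (congrArg _ (Desc.ext' ha hi hb.symm this.2.symm (by rw [kd, ke, ha, this.2])))
  refine (CP_le P.cfg ((range P.S ×ˢ range P.I).disjSum ((range P.S' ×ˢ range P.J).disjSum
    (((range P.S).filter fun s => ¬ ∃ A, Sat A (P.fml (s / P.SA))) ×ˢ range P.I)))
    (fun c p => ∃ d, P.pt d = p ∧ cD c d) ?_ ?_).trans ?_
  · intro p hp
    obtain ⟨d, hd, rfl⟩ := mem_cfg.1 hp
    have hb := hd.bounds
    rcases hd with h | h | h
    · have := h.1
      exact ⟨.inl (d.a - P.Q, d.i), by simp; omega, d, rfl, by simp; omega, rfl, Or.inl h⟩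
    · have := h.2.2
      exact ⟨.inr (.inl (d.b - 1, d.j)), by simp; omega, d, rfl, by simp; omega, rfl, Or.inl h⟩
    · have h1 := h.1
      have h2 := h.2.2.1
      have h4 := h.2.2.2.1
      have h5 := h.2.2.2.2.1
      by_cases hk : d.k = sel (d.a - P.Q) d.j
      · by_cases hs : sat d ∨ ¬ P.Low d
        · exact ⟨.inl (d.a - P.Q, d.i), by simp; omega, d, rfl, by simp; omega, rfl,
            Or.inr ⟨h, hk, hs⟩⟩
        · rw [not_or, not_not] at hs
          refine ⟨.inr (.inr (d.a - P.Q, d.i)), ?_, d, rfl, by simp; omega, rfl, h, hk, hs.2⟩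
          simp only [inr_mem_disjSum, mem_product, mem_filter, mem_range]
          exact ⟨⟨by omega, hs.1⟩, hb.2.1⟩
      · exact ⟨.inr (.inl (d.b - 1, d.j)), by simp; omega, d, rfl, by simp; omega, rfl,
          Or.inr ⟨h, hk⟩⟩
  · rintro (z | z | z) - p ⟨d, rfl, hd⟩
    · obtain ⟨a1, i1, hd⟩ := hd
      refine ⟨-2 * P.X d, ((P.E : ℚ) ^ 2 + 4 * P.X d * P.c d.a) * pM P.Bd, ?_⟩
      rintro q ⟨e, rfl, a2, i2, he⟩ hne
      have ha : e.a = d.a := a2.trans a1.symm
      have hi : e.i = d.i := i2.trans i1.symm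
      refine row_fun (hd.elim Or.inl fun h => Or.inr (Or.inr h.1))
        (he.elim Or.inl fun h => Or.inr (Or.inr h.1)) ha hi ?_
      by_cases hb : d.b = e.b
      swap
      · exact Or.inl hb
      right
      rcases hd with hd | ⟨od, kd, sd⟩ <;> rcases he with he | ⟨oe, ke, se⟩
      · refine ⟨fun hx => hne (congrArg _ (Desc.ext' ha hi hb.symm
          (X_inj (Or.inl hd) (Or.inl he) hx).2.symm (he.2.2.2.2.2.trans hd.2.2.2.2.2.symm))), ?_⟩
        unfold RM at hd he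
        unfold Low
        omega
      · unfold RM at hd; unfold Opt at oe; omega
      · unfold RM at he; unfold Opt at od; omega
      · refine ⟨rowX d e od oe ha hi hb kd ke hne, ?_⟩
        by_cases hs : sat d
        · have e1 := hsel _ d.j hs od.2.2.2.2.2.2.1.1
          have e2 := hsel _ e.j (show sat e by simpa only [sat, ha] using hs) oe.2.2.2.2.2.2.1.1
          rw [← kd, ← od.role_eq] at e1
          rw [← ke, ← oe.role_eq, ha, hi, ← hb, e1] at e2
          unfold Low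
          rw [ha, ← hb, e2]
        · have hs' : ¬ sat e := by simpa only [sat, ha] using hs
          exact iff_of_false (sd.resolve_left hs) (se.resolve_left hs')
    · obtain ⟨b1, j1, hd⟩ := hd
      have vd : P.Valid d := Or.inr (hd.elim Or.inl fun h => Or.inr h.1)
      have hs : ∃ s : ℤ, (s = 1 ∨ s = -1) ∧ ∀ e, cD (.inr (.inl z)) e → e.a = d.a →
          P.pt e ≠ P.pt d → (s : ℚ) * P.u e < s * P.u d := by
        have val : ∀ e, cD (.inr (.inl z)) e → P.Valid e := fun e he =>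
          Or.inr (he.2.2.elim Or.inl fun h => Or.inr h.1)
        have bd : 1 ≤ d.b ∧ d.b ≤ P.S' := by
          rcases hd with h | ⟨h, -⟩
          · exact ⟨h.2.2.1, h.2.2.2.1⟩
          · exact ⟨h.2.2.1, h.2.2.2.1⟩
        have kne : ∀ e, cD (.inr (.inl z)) e → e.a = d.a → P.pt e ≠ P.pt d → e.k ≠ d.k := by
          intro e he ha hne hk
          have hb := he.1.trans b1.symm
          have hj := he.2.1.trans j1.symm
          exact hne (congrArg _ (Desc.ext' ha
            (i_eq vd (val e he) bd.1 bd.2 ha.symm hb.symm hj.symm hk.symm).symm hb hj hk))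
        have uniq : ∀ e e', cD (.inr (.inl z)) e → cD (.inr (.inl z)) e' → e.a = d.a →
            e'.a = d.a → e.k ≠ d.k → e'.k ≠ d.k → e = e' := by
          intro e e' he he' ha ha' k1 k2
          have hb := he.1.trans he'.1.symm
          have hj := he.2.1.trans he'.2.1.symm
          have hk : e.k = e'.k := by
            have s3 := hs3 (d.a - P.Q) z.2
            have t1 := vd.bounds
            have t2 := (val e he).bounds
            have t3 := (val e' he').bounds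
            obtain ⟨-, j2, he⟩ := he
            obtain ⟨-, j3, he'⟩ := he'
            rw [j1] at hd
            rw [j2, ha] at he
            rw [j3, ha'] at he'
            unfold CM Opt at hd he he'
            omega
          exact Desc.ext' (by omega) (i_eq (val e he) (val e' he') (by rw [he.1]; omega)
            (by rw [he.1, ← b1]; omega) (by omega) hb hj hk) hb hj hk
        by_cases hex : ∃ e, cD (.inr (.inl z)) e ∧ e.a = d.a ∧ e.k ≠ d.k ∧ P.u d < P.u e
        · obtain ⟨e, he, ha, hk, hu⟩ := hex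
          refine ⟨-1, Or.inr rfl, fun e' he' ha' hne => ?_⟩
          rw [← uniq e e' he he' ha ha' hk (kne e' he' ha' hne)]
          have : (P.u d : ℚ) < P.u e := by exact_mod_cast hu
          push_cast
          linarith only [this]
        · refine ⟨1, Or.inl rfl, fun e he ha hne => ?_⟩
          have hk := kne e he ha hne
          have h1 := u_ne (val e he) vd (by unfold X; rw [he.1, he.2.1, b1, j1]) hk
          have h2 : ¬ P.u d < P.u e := fun h => hex ⟨e, he, ha, hk, h⟩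
          have : (P.u e : ℚ) < P.u d := by exact_mod_cast (by omega : P.u e < P.u d)
          push_cast
          linarith only [this]
      obtain ⟨s, hs1, hs2⟩ := hs
      refine ⟨1, -(2 * P.c d.a + s) * pM P.Bd, ?_⟩
      rintro q ⟨e, rfl, he⟩ hne
      have hx : P.X e = P.X d := by unfold X; rw [he.1, he.2.1, b1, j1]
      have ve : P.Valid e := Or.inr (he.2.2.elim Or.inl fun h => Or.inr h.1)
      refine col_lift vd ve s hs1 ?_
      by_cases ha : e.a = d.a
      · exact col_same ha hx s (hs2 e he ha hne)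
      · exact col_diff vd ve ha hx s hs1
    · obtain ⟨a1, i1, od, kd, ld⟩ := hd
      refine ⟨-2 * P.X d, ((P.E : ℚ) ^ 2 + 4 * P.X d * P.c d.a) * pM P.Bd, ?_⟩
      rintro q ⟨e, rfl, a2, i2, oe, ke, le⟩ hne
      have ha : e.a = d.a := a2.trans a1.symm
      have hi : e.i = d.i := i2.trans i1.symm
      refine row_fun (Or.inr (Or.inr od)) (Or.inr (Or.inr oe)) ha hi ?_
      by_cases hb : d.b = e.b
      · exact Or.inr ⟨rowX d e od oe ha hi hb kd ke hne, iff_of_true ld le⟩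
      · exact Or.inl hb
  · have h1 := card_le_mul_card_image_of_maps_to
      (s := (range P.S).filter fun s => ¬ ∃ A, Sat A (P.fml (s / P.SA)))
      (t := (range P.L).filter fun l => ¬ ∃ A, Sat A (P.fml l)) (f := fun s => s / P.SA) (by
        intro s hs
        simp only [mem_filter, mem_range] at hs ⊢
        exact ⟨Nat.div_lt_of_lt_mul (by rw [Nat.mul_comm]; exact hs.1), hs.2⟩) P.SA (by
        intro l _
        refine (card_le_card (t := Ico (l * P.SA) (l * P.SA + P.SA)) fun s hs => ?_).trans (by simp)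
        have := (mem_filter.1 hs).2
        rw [Nat.div_eq_iff P.SA_pos] at this
        have := P.SA_pos
        rw [mem_Ico]
        omega)
    simp only [card_disjSum, card_product, card_range, P.S_I, P.S'_J]
    have h2 := Nat.mul_le_mul_right P.I h1
    have h4 : ∀ u, P.SA * u * P.I = u * P.K := fun u => by unfold K; ring
    rw [h4] at h2
    omega

open Classical in
/-- The gap theorem. -/
theorem gap (h3 : ∀ φ ∈ P, ∀ c ∈ φ, c.length = 3) (hL : 2 ≤ P.L) {y : List (List (ℚ × ℚ))}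
    (hy : IsPartition P.cfg y) (hlen : 6 * P.L * y.length ≤ (6 * P.L + 1) * CP P.cfg) :
    ((range P.L).filter fun l => ¬ ∃ s < P.S, ∃ t < P.S', Sat (P.asg y s t) (P.fml l)).card ≤
      ((range P.L).filter fun l => ¬ ∃ A, Sat A (P.fml l)).card + 2 := by
  have h1 := CP_cfg_le h3
  have h2 : ((range P.L).filter fun l => ¬ ∃ A, Sat A (P.fml l)).card ≤ P.L :=
    (card_filter_le _ _).trans (by simp)
  generalize ((range P.L).filter fun l => ¬ ∃ A, Sat A (P.fml l)).card = u at *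
  have h4 := Nat.mul_le_mul_right P.K h2
  have h5 : y.length ≤ 5 * (P.L * P.K) + (u + 1) * P.K := by
    refine Nat.le_of_mul_le_mul_left (hlen.trans ((Nat.mul_le_mul_left _ h1).trans ?_))
      (show 0 < 6 * P.L by omega)
    have : P.L * P.K ≤ P.L * P.K := le_rfl
    linarith only [h4]
  refine Ctx.unsolved ⟨hy.2.2, fun d hd => (hy.2.1 _).1 (mem_cfg.2 ⟨d, hd, rfl⟩), ?_⟩ h3 hL h5
  have h6 := Nat.mul_le_mul_right P.K (show 1 ≤ P.L by omega)
  unfold Pm
  rw [Nat.add_mul] at h5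
  omega

theorem cfg_ne_nil (hL : 1 ≤ P.L) : P.cfg ≠ [] := by
  have h1 : 0 < P.S := Nat.mul_pos hL P.SA_pos
  have h2 := P.J_lt_Q
  have : P.Valid ⟨P.Q, 0, 0, 0, 0⟩ :=
    Or.inl ⟨le_rfl, by simpa using h1, P.I_pos, Or.inl rfl, by simp; omega, rfl⟩
  exact List.ne_nil_of_mem (mem_cfg.2 ⟨_, this, rfl⟩)

/-- No three points of the configuration are collinear. -/
theorem cfg_gen : ∀ p ∈ P.cfg, ∀ q ∈ P.cfg, ∀ r ∈ P.cfg, p ≠ q → p ≠ r → q ≠ r →
    ¬ Collinear ℝ {toPlane p, toPlane q, toPlane r} := by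
  intro p hp q hq r hr n1 n2 n3
  obtain ⟨d, hd, rfl⟩ := mem_cfg.1 hp
  obtain ⟨e, he, rfl⟩ := mem_cfg.1 hq
  obtain ⟨f, hf, rfl⟩ := mem_cfg.1 hr
  have k : ∀ a b : Desc, P.pt a ≠ P.pt b → ¬ (P.xN a = P.xN b ∧ P.yN a = P.yN b) := by
    intro a b h h'
    exact h (by simp only [pt, xP, yP, h'.1, h'.2])
  exact not_collinear (ori_ne (xN_le hd) (yN_le hd) (xN_le he) (yN_le he) (xN_le hf) (yN_le hf)
    (k _ _ n1) (k _ _ n2) (k _ _ n3))

end

attribute [local irreducible] L κ n g qA I nB qB J R0 SA S S' K Pm NG Q G1 Γ Xm d0 Δ H m Z E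

variable {α : Type} [Enc α] {P : α → Par} {s t j k a i b : α → ℕ} {d : α → Desc}
  {T : α → List (ℚ × ℚ)} {y : α → List (List (ℚ × ℚ))}

@[fun_prop] theorem pt_Bd : PT Bd := by unfold Bd; fun_prop
@[fun_prop] theorem pt_pK : PT pK := by unfold pK; fun_prop
@[fun_prop] theorem pt_pZ : PT pZ := by unfold pZ; fun_prop
@[fun_prop] theorem pt_pM : PT pM := by unfold pM; fun_prop
@[fun_prop] theorem pt_xN (hP : PT P) (hd : PT d) : PT fun x => (P x).xN (d x) := by
  unfold xN; fun_prop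
@[fun_prop] theorem pt_yN (hP : PT P) (hd : PT d) : PT fun x => (P x).yN (d x) := by
  unfold yN Y; fun_prop
@[fun_prop] theorem pt_pt (hP : PT P) (hd : PT d) : PT fun x => (P x).pt (d x) := by
  unfold pt xP yP px py; fun_prop

@[fun_prop] theorem pt_cfg : PT cfg := by
  unfold cfg; exact pt_ded (by fun_prop)

@[fun_prop] theorem pt_Cov [∀ x, Decidable ((P x).Cov (T x) (d x))] (hP : PT P) (hT : PT T)
    (hd : PT d) : PT fun x => decide ((P x).Cov (T x) (d x)) := by
  classical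
  unfold Cov at *; fun_prop

theorem ex_cov (P : Par) (T : List (ℚ × ℚ)) (p : Desc → Prop) :
    (∃ d ∈ P.descs, P.Cov T d ∧ p d) ↔ ∃ d, P.Cov T d ∧ p d :=
  ⟨fun ⟨d, _, h⟩ => ⟨d, h⟩, fun ⟨d, h⟩ => ⟨d, mem_descs.2 h.1.1, h⟩⟩

@[fun_prop] theorem pt_MainR [∀ x, Decidable ((P x).MainR (T x) (a x) (i x))] (hP : PT P)
    (hT : PT T) (ha : PT a) (hi : PT i) : PT fun x => decide ((P x).MainR (T x) (a x) (i x)) := by
  classical
  refine pt_dec (p := fun x => ∃ d1 ∈ (P x).descs, (P x).Cov (T x) d1 ∧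
    ∃ d2 ∈ (P x).descs, (P x).Cov (T x) d2 ∧ ∃ d3 ∈ (P x).descs, (P x).Cov (T x) d3 ∧
      d1.a = a x ∧ d1.i = i x ∧ d2.a = a x ∧ d2.i = i x ∧ d3.a = a x ∧ d3.i = i x ∧
      ((P x).Low d2 ↔ (P x).Low d1) ∧ ((P x).Low d2 ↔ (P x).Low d3) ∧
      (P x).X d1 < (P x).X d2 ∧ (P x).X d2 < (P x).X d3) (by fun_prop) fun x => ?_
  simp only [ex_cov, MainR]
  exact ⟨fun ⟨d1, h1, d2, h2, d3, h3, h⟩ => ⟨d1, d2, d3, h1, h2, h3, h⟩,
    fun ⟨d1, d2, d3, h1, h2, h3, h⟩ => ⟨d1, h1, d2, h2, d3, h3, h⟩⟩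

@[fun_prop] theorem pt_HonR [∀ x, Decidable ((P x).HonR (y x) (a x) (i x))] (hP : PT P)
    (hy : PT y) (ha : PT a) (hi : PT i) : PT fun x => decide ((P x).HonR (y x) (a x) (i x)) := by
  classical
  unfold HonR at *; fun_prop

@[fun_prop] theorem pt_Val [∀ x, Decidable ((P x).Val (y x) (a x) (i x) (b x))] (hP : PT P)
    (hy : PT y) (ha : PT a) (hi : PT i) (hb : PT b) :
    PT fun x => decide ((P x).Val (y x) (a x) (i x) (b x)) := by
  classical
  refine pt_dec (p := fun x => ∃ T ∈ y x, (P x).MainR T (a x) (i x) ∧ ∃ d ∈ (P x).descs,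
    (P x).Cov T d ∧ d.a = a x ∧ d.i = i x ∧ d.b = b x ∧ (P x).Low d) (by fun_prop) fun x => ?_
  simp only [ex_cov, Val]

@[fun_prop] theorem pt_pick (hP : PT P) (hy : PT y) (hs : PT s) (ht : PT t) (hk : PT k) :
    PT fun x => (P x).pick (y x) (s x) (t x) (k x) := by
  classical
  unfold pick; fun_prop

@[fun_prop] theorem pt_asg (hP : PT P) (hy : PT y) (hs : PT s) (ht : PT t) (hk : PT k) :
    PT fun x => (P x).asg (y x) (s x) (t x) (k x) := by
  unfold asg; fun_prop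

end Par

theorem reduces (A : NPO) (hA : A.InAPX) :
    ∃ (f : List Bool × List Bool → List (ℚ × ℚ))
      (g : (List Bool × List Bool) × List (List (ℚ × ℚ)) → List Bool) (α : ℕ),
      0 < α ∧ N68a2faeb.IsPolyTime f ∧ N68a2faeb.IsPolyTime g ∧
      ∀ (k : ℕ) (x : List Bool), 1 ≤ k → A.Feasible x →
        (f (x, List.replicate k true)).Nodup ∧ f (x, List.replicate k true) ≠ [] ∧
        (∀ p ∈ f (x, List.replicate k true), ∀ q ∈ f (x, List.replicate k true),
          ∀ r ∈ f (x, List.replicate k true), p ≠ q → p ≠ r → q ≠ r →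
          ¬ Collinear ℝ {toPlane p, toPlane q, toPlane r}) ∧
        ∀ y, IsPartition (f (x, List.replicate k true)) y →
          A.sol (x, g ((x, List.replicate k true), y)) = true ∧
          ((y.length : ℝ) ≤ (1 + 1 / ((α : ℝ) * k)) * CP (f (x, List.replicate k true)) →
            A.Approx (1 + 1 / (k : ℝ)) x (g ((x, List.replicate k true), y))) := by
  classical
  obtain ⟨r, alg, halg, hr⟩ := hA
  obtain ⟨ρ, hρ1, hρ⟩ : ∃ ρ : ℕ, 1 ≤ ρ ∧ r ≤ ρ :=
    ⟨⌈r⌉₊ + 1, by omega, by push_cast; linarith [Nat.le_ceil r]⟩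
  have psol : PT A.sol := pt_of_tm2 A.sol_poly _ (fun z => z) (fun _ => rfl) fun _ => rfl
  have pval : PT fun z => Bin.mk (A.val z) :=
    pt_of_tm2 A.val_poly _ (fun z => z) (fun _ => rfl) fun _ => rfl
  have palg : PT alg := pt_of_tm2 halg _ (fun z => z) (fun _ => rfl) fun _ => rfl
  obtain ⟨φ, pφ, φ3, φc, φs⟩ := cook_levin_wit
    (fun z : ((List Bool × List Bool) × ℕ) × List Bool => decide (A.sol (z.1.1.1, z.2) = true ∧
      Thr A.isMax (3 * ρ * z.1.1.2.length) ρ z.1.2 (A.val (z.1.1.1, alg z.1.1.1))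
        (A.val (z.1.1.1, z.2))))
    (PT.dand (by fun_prop) (pt_Thr _ _ (by fun_prop) (by fun_prop)
      (pval.comp (by fun_prop)) (pval.comp (by fun_prop))))
    (fun z => A.bound.eval z.1.1.length) (by fun_prop)
  let Φ : List Bool × List Bool → Par := fun z =>
    (List.range (3 * ρ * z.2.length)).map fun l => φ (z, l)
  have pΦ : PT Φ := by fun_prop
  let cands : (List Bool × List Bool) × List (List (ℚ × ℚ)) → List (List Bool) := fun z =>
    (List.range (Φ z.1).S).flatMap fun s => (List.range (Φ z.1).S').flatMap fun t =>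
      (List.range (A.bound.eval z.1.1.length + 1)).map fun len => wit ((Φ z.1).asg z.2 s t) len
  have pc : PT cands := by
    simp only [cands, wit]
    fun_prop
  let g : (List Bool × List Bool) × List (List (ℚ × ℚ)) → List Bool := fun z =>
    (cands z).foldl (fun b w => if A.sol (z.1.1, w) = true ∧
      Bt A.isMax (A.val (z.1.1, b)) (A.val (z.1.1, w)) then w else b) (alg z.1.1)
  have pg : PT g := by
    refine PT.foldl (f := fun (z : (List Bool × List Bool) × List (List (ℚ × ℚ))) b w =>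
      if A.sol (z.1.1, w) = true ∧
      Bt A.isMax (A.val (z.1.1, b)) (A.val (z.1.1, w)) then w else b)
      (PT.ite (PT.dand (by fun_prop) (pt_Bt _ (pval.comp (by fun_prop)) (pval.comp (by fun_prop))))
        (by fun_prop) (by fun_prop)) (by fun_prop) pc (fun n => n) (by fun_prop) fun a c x => ?_
    split_ifs <;> omega
  refine ⟨fun z => (Φ z).cfg, g, 18 * ρ, by omega,
    (Par.pt_cfg.comp pΦ).tm2 _ _ _ (fun z => z) (fun _ => rfl) fun _ => rfl,
    pg.tm2 _ _ _ (fun z => z) (fun _ => rfl) fun _ => rfl, fun k x hk hx => ?_⟩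
  set z : List Bool × List Bool := (x, List.replicate k true) with hz
  have hL : (Φ z).L = 3 * ρ * k := by simp [Par.L, Φ, hz]
  have hL3 : 3 ≤ 3 * ρ * k := by nlinarith only [hρ1, hk]
  have hf : ∀ l < 3 * ρ * k, (Φ z).fml l = φ (z, l) := by
    intro l hl
    simp [Par.fml, Φ, hz, List.getD_eq_getElem?_getD, hl]
  refine ⟨ded_nodup _, Par.cfg_ne_nil (by omega), Par.cfg_gen, fun y hy => ?_⟩
  obtain ⟨s0, a0⟩ := hr x hx
  obtain ⟨b1, b2, b3⟩ := fold_best (fun w => A.sol (x, w) = true) (fun w => A.val (x, w)) A.isMax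
    (cands (z, y)) (alg x) s0
  change A.sol (x, g (z, y)) = true at b1
  change Bt _ _ (A.val (x, g (z, y))) at b2
  change ∀ w ∈ _, _ → Bt _ _ (A.val (x, g (z, y))) at b3
  refine ⟨b1, fun hlen => ⟨b1, fun w hw => ?_⟩⟩
  have hk0 : (0 : ℝ) < k := by exact_mod_cast hk
  have hρ0 : (0 : ℝ) < ρ := by exact_mod_cast hρ1
  have hlen' : 6 * (Φ z).L * y.length ≤ (6 * (Φ z).L + 1) * CP (Φ z).cfg := by
    rw [hL]
    have h1 := mul_le_mul_of_nonneg_left hlen (show (0 : ℝ) ≤ 18 * ρ * k by positivity)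
    have h2 : (18 * ρ * k : ℝ) * ((1 + 1 / (((18 * ρ : ℕ) : ℝ) * k)) * CP (Φ z).cfg) =
        (6 * (3 * ρ * k) + 1) * CP (Φ z).cfg := by
      push_cast
      field_simp
      ring
    rw [h2, show (18 * ρ * k : ℝ) = 6 * (3 * ρ * k) by ring] at h1
    exact_mod_cast h1
  have hgap := Par.gap (P := Φ z) (by
    intro ψ hψ
    obtain ⟨l, -, rfl⟩ := List.mem_map.1 hψ
    exact φ3 _) (by omega) hy hlen'
  rw [hL] at hgap
  have aw := a0 w hw
  have p0 := A.val_pos x _ hx.1 s0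
  have pw := A.val_pos x _ hx.1 hw
  have aw' : if A.isMax = true then A.val (x, w) ≤ ρ * A.val (x, alg x)
      else A.val (x, alg x) ≤ ρ * A.val (x, w) := by
    split_ifs at aw ⊢
    · exact_mod_cast aw.trans (mul_le_mul_of_nonneg_right hρ (Nat.cast_nonneg _))
    · exact_mod_cast aw.trans (mul_le_mul_of_nonneg_right hρ (Nat.cast_nonneg _))
  obtain ⟨j, hj, hn, hs⟩ := ladder _ _
    (fun l => Thr A.isMax (3 * ρ * k) ρ l (A.val (x, alg x)) (A.val (x, w))) hgap (by
      intro l hl ht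
      rw [hf l hl]
      exact φc (z, l) w (A.sol_short x w hx.1 hw) (by simpa [hz] using ⟨hw, ht⟩)) (by omega) (by
      unfold Thr
      generalize 3 * ρ * k = L at hL3
      obtain ⟨L', rfl⟩ : ∃ L', L = L' + 1 := ⟨L - 1, by omega⟩
      split_ifs at aw' ⊢
      · rw [Nat.add_sub_cancel]
        nlinarith
      · rw [show L' + 1 - (L' + 1 - 1) - 1 = 0 by omega]
        nlinarith)
  have fin := final_ineq (mx := A.isMax) (mg := A.val (x, g (z, y))) hρ1 hj
    (by split_ifs at aw' ⊢; exact aw') hn b2 (hs.imp_right (by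
      rintro ⟨l, hl, hjl, s, hs, t, ht, hsat⟩
      rw [hf l hl] at hsat
      obtain ⟨len, h1, h2⟩ := φs _ _ hsat
      simp only [hz, List.length_replicate, decide_eq_true_eq] at h1 h2
      refine h2.2.better hjl (b3 _ ?_ h2.1)
      simp only [cands, List.mem_flatMap, List.mem_map, List.mem_range]
      exact ⟨s, hs, t, ht, len, by simp only [hz]; omega, rfl⟩))
  have conv : ∀ a b : ℕ, k * a ≤ (k + 1) * b → (a : ℝ) ≤ (1 + 1 / (k : ℝ)) * b := by
    intro a b h
    have h' : (k : ℝ) * a ≤ (k + 1) * b := by exact_mod_cast h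
    rw [show (1 + 1 / (k : ℝ)) * b = (k + 1) * b / k by field_simp, le_div_iff₀ hk0]
    linarith only [h']
  split_ifs at fin ⊢
  · exact conv _ _ fin
  · exact conv _ _ fin

end Pool.Agent.Work.MP_32aa60_lc.GP
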