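import Pool.Agent.Work.MP_32aa60_lc.H39Top

/-!
A perturbation that puts a bounded set of integer points in general position, keeps every strict
orientation, and pushes the middle one of three collinear points to the right.
-/

namespace Pool.Agent.Work.MP_32aa60_lc.GP

def pK (B : ℕ) : ℕ := B ^ 3 + 1
def pZ (B : ℕ) : ℕ := pK B * B ^ 2 + B ^ 2 + B
def pM (B : ℕ) : ℕ := 10 * pZ B ^ 2 + 1
def px (B x y : ℕ) : ℕ := pM B ^ 2 * x + pM B * (pK B * (y * (B - y)))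
def py (B x y : ℕ) : ℕ := pM B * y + x ^ 2

/-- The Vandermonde product. -/
def vdm (a b c : ℤ) : ℤ := (b - a) * (c - a) * (c - b)

def q5 (B x y : ℕ) : Q5 := ⟨x, (pK B : ℤ) * (y * ((B : ℤ) - y)), 0, y, (x : ℤ) ^ 2⟩

theorem A_le {B y : ℕ} : pK B * (y * (B - y)) ≤ pK B * B ^ 2 := by
  refine Nat.mul_le_mul_left _ ?_
  rcases le_total y B with h | h
  · rw [sq]; exact Nat.mul_le_mul h (Nat.sub_le _ _)
  · rw [Nat.sub_eq_zero_of_le h]; simp

theorem A_cast {B y : ℕ} (hy : y ≤ B) :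
    ((pK B * (y * (B - y)) : ℕ) : ℤ) = (pK B : ℤ) * (y * ((B : ℤ) - y)) := by
  push_cast [Nat.cast_sub hy]; ring

theorem q5_bd {B x y : ℕ} (hx : x ≤ B) (hy : y ≤ B) : (q5 B x y).Bd (pZ B) := by
  have h1 := A_le (B := B) (y := y)
  have h2 : x ^ 2 ≤ B ^ 2 := Nat.pow_le_pow_left hx 2
  have e := A_cast hy
  have h3 : ((x ^ 2 : ℕ) : ℤ) = (x : ℤ) ^ 2 := by push_cast; rfl
  have h4 : pZ B = pK B * B ^ 2 + B ^ 2 + B := rfl
  simp only [Q5.Bd, q5]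
  rw [← e, ← h3]
  omega

theorem q5_x {B x y : ℕ} (hy : y ≤ B) : (q5 B x y).x (pM B) = px B x y := by
  simp only [Q5.x, q5, px]
  rw [← A_cast hy]; push_cast; ring

theorem q5_y (B x y : ℕ) : (q5 B x y).y (pM B) = py B x y := by
  simp only [Q5.y, q5, py]; push_cast; ring

theorem M_gt (B : ℕ) : 10 * (pZ B : ℤ) ^ 2 < pM B := by
  unfold pM; push_cast; omega

theorem ori_pert {B x1 y1 x2 y2 x3 y3 : ℕ} (a1 : x1 ≤ B) (b1 : y1 ≤ B) (a2 : x2 ≤ B) (b2 : y2 ≤ B)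
    (a3 : x3 ≤ B) (b3 : y3 ≤ B)
    (h : 0 < ori x1 y1 x2 y2 x3 y3 ∨
      (ori x1 y1 x2 y2 x3 y3 = 0 ∧ 0 < vdm x1 x2 x3 + pK B * vdm y1 y2 y3)) :
    0 < ori (px B x1 y1) (py B x1 y1) (px B x2 y2) (py B x2 y2) (px B x3 y3) (py B x3 y3) := by
  have := ori_lex (M_gt B) (q5_bd a1 b1) (q5_bd a2 b2) (q5_bd a3 b3) (h.imp_right fun h =>
    ⟨h.1, lt_of_lt_of_eq h.2 (by simp only [q5, ori, vdm]; ring)⟩)
  rwa [q5_x b1, q5_x b2, q5_x b3, q5_y, q5_y, q5_y] at this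

theorem vdm_abs {B a b c : ℕ} (ha : a ≤ B) (hb : b ≤ B) (hc : c ≤ B) :
    |vdm a b c| < pK B := by
  have k : ∀ s t : ℕ, s ≤ B → t ≤ B → |(s : ℤ) - t| ≤ B := fun s t hs ht =>
    abs_le.2 ⟨by omega, by omega⟩
  have h : |vdm a b c| ≤ (B : ℤ) * B * B := by
    unfold vdm
    rw [abs_mul, abs_mul]
    exact mul_le_mul (mul_le_mul (k _ _ hb ha) (k _ _ hc ha) (abs_nonneg _) (by positivity))
      (k _ _ hc hb) (abs_nonneg _) (by positivity)
  have e : (pK B : ℤ) = (B : ℤ) * B * B + 1 := by unfold pK; push_cast; ring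
  omega

theorem lev_pos {B x1 x2 x3 : ℕ} {v : ℤ} (a1 : x1 ≤ B) (a2 : x2 ≤ B) (a3 : x3 ≤ B) (hv : 0 < v) :
    0 < vdm x1 x2 x3 + pK B * v := by
  have h1 := abs_lt.1 (vdm_abs a1 a2 a3)
  have h2 : (pK B : ℤ) ≤ pK B * v := le_mul_of_one_le_right (Int.natCast_nonneg _) hv
  omega

theorem ori_ne {B x1 y1 x2 y2 x3 y3 : ℕ} (a1 : x1 ≤ B) (b1 : y1 ≤ B) (a2 : x2 ≤ B) (b2 : y2 ≤ B)
    (a3 : x3 ≤ B) (b3 : y3 ≤ B) (n12 : ¬ (x1 = x2 ∧ y1 = y2)) (n13 : ¬ (x1 = x3 ∧ y1 = y3))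
    (n23 : ¬ (x2 = x3 ∧ y2 = y3)) :
    ori (px B x1 y1) (py B x1 y1) (px B x2 y2) (py B x2 y2) (px B x3 y3) (py B x3 y3) ≠ 0 := by
  have sw : ∀ a b c : ℤ, vdm a c b = -vdm a b c := fun a b c => by unfold vdm; ring
  have pos := fun h => (ori_pert a1 b1 a2 b2 a3 b3 h).ne'
  have neg : (0 < ori x1 y1 x3 y3 x2 y2 ∨
      (ori x1 y1 x3 y3 x2 y2 = 0 ∧ 0 < vdm x1 x3 x2 + pK B * vdm y1 y3 y2)) →
      ori (px B x1 y1) (py B x1 y1) (px B x2 y2) (py B x2 y2) (px B x3 y3) (py B x3 y3) ≠ 0 := by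
    intro h
    have := ori_pert a1 b1 a3 b3 a2 b2 h
    rw [Par.ori_swap] at this
    omega
  have s0 := Par.ori_swap x1 y1 x2 y2 x3 y3
  rcases lt_trichotomy 0 (ori x1 y1 x2 y2 x3 y3) with h | h | h
  · exact pos (Or.inl h)
  · rcases lt_trichotomy 0 (vdm y1 y2 y3) with g | g | g
    · exact pos (Or.inr ⟨h.symm, lev_pos a1 a2 a3 g⟩)
    · have hy : y1 = y2 ∧ y1 = y3 := by
        unfold vdm at g
        unfold ori at h
        rcases mul_eq_zero.1 g.symm with g | g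
        · rcases mul_eq_zero.1 g with g | g
          · have e : y1 = y2 := by omega
            rw [g, mul_zero, sub_zero] at h
            rcases mul_eq_zero.1 h.symm with h | h <;> omega
          · have e : y1 = y3 := by omega
            rw [g, mul_zero, zero_sub, eq_comm, neg_eq_zero] at h
            rcases mul_eq_zero.1 h with h | h <;> omega
        · have e : y2 = y3 := by omega
          rw [e, ← sub_mul] at h
          rcases mul_eq_zero.1 h.symm with h | h <;> omega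
      have hx : vdm x1 x2 x3 ≠ 0 := by
        unfold vdm
        exact mul_ne_zero (mul_ne_zero (by omega) (by omega)) (by omega)
      rcases lt_or_gt_of_ne hx with k | k
      · refine neg (Or.inr ⟨by omega, ?_⟩)
        rw [sw, sw y1, ← g]
        omega
      · refine pos (Or.inr ⟨h.symm, ?_⟩)
        rw [← g]
        omega
    · exact neg (Or.inr ⟨by omega, lev_pos a1 a3 a2 (by rw [sw]; omega)⟩)
  · exact neg (Or.inl (by omega))

theorem fun_pert {B x y x' y' : ℕ} {α β : ℤ} (a1 : x ≤ B) (b1 : y ≤ B) (a2 : x' ≤ B) (b2 : y' ≤ B)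
    (hα : |α| ≤ B) (hβ : |β| ≤ B) (h : α * x + β * y < α * x' + β * y') :
    α * px B x y + β * pM B * py B x y < α * px B x' y' + β * pM B * py B x' y' := by
  obtain ⟨-, u1, -, -, v1⟩ := q5_bd a1 b1
  obtain ⟨-, u2, -, -, v2⟩ := q5_bd a2 b2
  rw [← q5_x b1, ← q5_x b2, ← q5_y, ← q5_y]
  simp only [Q5.x, Q5.y]
  have e1 : (q5 B x y).X = x := rfl
  have e2 : (q5 B x' y').X = x' := rfl
  have e3 : (q5 B x y).Y = y := rfl
  have e4 : (q5 B x' y').Y = y' := rfl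
  have e5 : (q5 B x y).B = 0 := rfl
  have e6 : (q5 B x' y').B = 0 := rfl
  rw [e1, e2, e3, e4, e5, e6]
  generalize (q5 B x y).A = A at *
  generalize (q5 B x' y').A = A' at *
  generalize (q5 B x y).C = C at *
  generalize (q5 B x' y').C = C' at *
  have hM := M_gt B
  have hZ : (B : ℤ) ≤ pZ B := by
    have : pZ B = pK B * B ^ 2 + B ^ 2 + B := rfl
    omega
  generalize (pM B : ℤ) = M at *
  generalize (pZ B : ℤ) = Z at *
  have k : ∀ γ s t : ℤ, |γ| ≤ B → 0 ≤ s ∧ s ≤ Z → 0 ≤ t ∧ t ≤ Z → γ * (s - t) ≤ Z ^ 2 := by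
    intro γ s t hγ hs ht
    refine (le_abs_self _).trans ?_
    rw [abs_mul, sq]
    exact mul_le_mul (hγ.trans hZ) (abs_le.2 ⟨by omega, by omega⟩) (abs_nonneg _) (by omega)
  have k1 := k α A A' hα u1 u2
  have k2 := k β C C' hβ v1 v2
  have z0 : 0 ≤ Z ^ 2 := sq_nonneg Z
  have m0 : 0 < M := by omega
  have k3 : M ≤ M * (α * x' + β * y' - (α * x + β * y)) :=
    le_mul_of_one_le_right m0.le (by omega)
  have k4 : 0 < M * (α * x' + β * y' - (α * x + β * y)) - (α * (A - A') + β * (C - C')) := by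
    omega
  have k5 := mul_pos m0 k4
  linarith only [k5]

theorem not_collinear {x1 y1 x2 y2 x3 y3 : ℕ} (h : ori x1 y1 x2 y2 x3 y3 ≠ 0) :
    ¬ Collinear ℝ {toPlane ((x1 : ℚ), (y1 : ℚ)), toPlane ((x2 : ℚ), (y2 : ℚ)),
      toPlane ((x3 : ℚ), (y3 : ℚ))} := by
  intro hc
  rw [collinear_iff_of_mem (p₀ := toPlane ((x1 : ℚ), (y1 : ℚ))) (by simp)] at hc
  obtain ⟨v, hv⟩ := hc
  obtain ⟨r, hr⟩ := hv (toPlane ((x2 : ℚ), (y2 : ℚ))) (by simp)
  obtain ⟨s, hs⟩ := hv (toPlane ((x3 : ℚ), (y3 : ℚ))) (by simp)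
  simp only [toPlane, Rat.cast_natCast, vadd_eq_add, Prod.ext_iff, Prod.fst_add, Prod.snd_add,
    Prod.smul_fst, Prod.smul_snd, smul_eq_mul] at hr hs
  apply h
  have : ((ori x1 y1 x2 y2 x3 y3 : ℤ) : ℝ) = 0 := by
    unfold ori
    push_cast
    rw [hr.1, hr.2, hs.1, hs.2]
    ring
  exact_mod_cast this

end Pool.Agent.Work.MP_32aa60_lc.GP
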